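import Mathlib

set_option autoImplicit false

namespace Pool.Agent.Lib.MP_d2ae2d_co

def RW (s L : ℕ) : Type := {l : List (Fin s) // l.length ≤ L ∧ l.IsChain (· ≠ ·)}

instance (s L : ℕ) : Finite (RW s L) :=
  ((List.finite_length_le (Fin s) L).subset (fun _ h => h.1) :
    {l : List (Fin s) | l.length ≤ L ∧ l.IsChain (· ≠ ·)}.Finite)

def actL {s : ℕ} (L : ℕ) (i : Fin s) (l : List (Fin s)) : List (Fin s) :=
  if l.head? = some i then l.tail else if l.length < L then i :: l else l

def act {s : ℕ} (L : ℕ) (i : Fin s) (l : RW s L) : RW s L :=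
  ⟨actL L i l.1, by
    obtain ⟨l, h1, h2⟩ := l
    unfold actL
    split_ifs with a b
    · exact ⟨by simp only [List.length_tail]; omega, h2.tail⟩
    · refine ⟨b, h2.cons ?_⟩
      intro y hy h
      exact a (h ▸ hy)
    · exact ⟨h1, h2⟩⟩

lemma act_invol {s : ℕ} (L : ℕ) (i : Fin s) : Function.Involutive (act L i) := by
  rintro ⟨l, h1, h2⟩
  apply Subtype.ext
  change actL L i (actL L i l) = l
  by_cases a : l.head? = some i
  · obtain ⟨t, rfl⟩ := List.head?_eq_some_iff.1 a
    have h3 : actL L i (i :: t) = t := by simp [actL]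
    have h4 : t.head? ≠ some i := fun h => (List.isChain_cons.1 h2).1 i h rfl
    have h5 : t.length < L := by simpa using h1
    rw [h3]
    simp [actL, h4, h5]
  · by_cases b : l.length < L
    · have h3 : actL L i l = i :: l := by simp [actL, a, b]
      rw [h3]
      simp [actL]
    · have h3 : actL L i l = l := by simp [actL, a, b]
      rw [h3, h3]

/-- A finite group with `s` involutions satisfying no short relation. -/
lemma exists_group (s L : ℕ) (hL : 0 < L) :
    ∃ (Γ : Type) (_ : Group Γ) (_ : Fintype Γ) (σ : Fin s → Γ), Function.Injective σ ∧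
      (∀ i, (σ i)⁻¹ = σ i) ∧
      ∀ (a : ℕ → Fin s) (g : ℕ → Γ), (∀ j, a j ≠ a (j + 1)) → g 0 = 1 →
        (∀ j, g (j + 1) = σ (a j) * g j) → ∀ i ≤ L, ∀ j ≤ L, g i = g j → i = j := by
  classical
  have : Fintype (RW s L) := Fintype.ofFinite _
  let nil : RW s L := ⟨[], by simp⟩
  refine ⟨Equiv.Perm (RW s L), inferInstance, inferInstance,
    fun i => (act_invol L i).toPerm, ?_, fun i => rfl, ?_⟩
  · intro i j h
    have h1 : (act L i nil).1 = (act L j nil).1 := congrArg (fun p => (p nil).1) h
    simpa [act, actL, nil, hL] using h1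
  · intro a g ha h0 hs
    have key : ∀ j, j + 1 ≤ L → (g (j + 1) nil).1.length = j + 1 ∧
        (g (j + 1) nil).1.head? = some (a j) := by
      intro j
      induction j with
      | zero =>
        intro _
        rw [hs, h0]
        change (actL L (a 0) []).length = _ ∧ (actL L (a 0) []).head? = _
        simp [actL, hL]
      | succ j ih =>
        intro hj
        obtain ⟨h1, h2⟩ := ih (by omega)
        rw [hs (j + 1)]
        change (actL L (a (j + 1)) (g (j + 1) nil).1).length = _ ∧
          (actL L (a (j + 1)) (g (j + 1) nil).1).head? = _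
        have h3 : (g (j + 1) nil).1.head? ≠ some (a (j + 1)) := by
          rw [h2]
          exact fun h => ha j (Option.some.inj h)
        have h4 : j + 1 < L := by omega
        simp [actL, h3, h4, h1]
    have key2 : ∀ j ≤ L, (g j nil).1.length = j := by
      intro j hj
      cases j with
      | zero => rw [h0]; rfl
      | succ j => exact (key j hj).1
    intro i hi j hj h
    rw [← key2 i hi, ← key2 j hj, h]

lemma ofFn_update {Γ : Type*} {r : ℕ} (v : Fin r → Γ) (p : Fin r) (a : Γ) :
    List.ofFn (Function.update v p a) = (List.ofFn v).set p a := by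
  apply List.ext_getElem
  · simp
  · intro i h1 h2
    simp only [List.getElem_ofFn, List.getElem_set, Function.update_apply]
    by_cases h : (p : ℕ) = i
    · subst h
      simp
    · rw [if_neg h, if_neg (fun h' => h (by rw [← h']))]

lemma prod_factor {Γ : Type*} [Group Γ] {r : ℕ} (v : Fin r → Γ) {p q : Fin r} (hpq : p < q) :
    ∃ h g h' : Γ, ∀ a b : Γ,
      (List.ofFn (Function.update (Function.update v p a) q b)).prod = h * a * g * b * h' := by
  refine ⟨(((List.ofFn v).take q).take p).prod, (((List.ofFn v).take q).drop (p + 1)).prod,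
    ((List.ofFn v).drop (q + 1)).prod, fun a b => ?_⟩
  have h1 : (p : ℕ) < q := hpq
  have h2 := q.2
  rw [ofFn_update, ofFn_update, List.prod_set, List.take_set, List.prod_set,
    List.drop_set_of_lt (by omega), if_pos (by simp; omega), if_pos (by simp)]

/-- A non-backtracking walk in a link visits many vertices. -/
lemma walk_inj {Γ : Type*} [Group Γ] {s L : ℕ} {σ : Fin s → Γ} (hinv : ∀ i, (σ i)⁻¹ = σ i)
    (hfree : ∀ (a : ℕ → Fin s) (g : ℕ → Γ), (∀ j, a j ≠ a (j + 1)) → g 0 = 1 →
        (∀ j, g (j + 1) = σ (a j) * g j) → ∀ i ≤ L, ∀ j ≤ L, g i = g j → i = j)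
    (h g h' : Γ) (α β : ℕ → Γ) (hα : ∀ j, α j ≠ α (j + 1)) (hβ : ∀ j, β j ≠ β (j + 1))
    (b c : ℕ → Fin s) (h1 : ∀ j, h * α j * g * β j * h' = σ (b j))
    (h2 : ∀ j, h * α (j + 1) * g * β j * h' = σ (c j)) :
    ∀ i j, 2 * i ≤ L → 2 * j ≤ L → α i = α j → i = j := by
  let a : ℕ → Fin s := fun n => if n % 2 = 0 then b (n / 2) else c (n / 2)
  let G : ℕ → Γ := fun n => Nat.rec 1 (fun n x => σ (a n) * x) n
  have hG : ∀ j, G (j + 1) = σ (a j) * G j := fun j => rfl
  have a0 : ∀ j, a (2 * j) = b j := fun j => by simp [a]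
  have a1 : ∀ j, a (2 * j + 1) = c j := fun j => by
    have e1 : (2 * j + 1) % 2 = 1 := by omega
    have e2 : (2 * j + 1) / 2 = j := by omega
    simp [a, e1, e2]
  have ha : ∀ n, a n ≠ a (n + 1) := by
    intro n
    rcases Nat.even_or_odd' n with ⟨j, rfl | rfl⟩
    · rw [a0, a1]
      intro e
      have := (h1 j).trans ((congrArg σ e).trans (h2 j).symm)
      exact hα j (by simpa using this)
    · rw [show 2 * j + 1 + 1 = 2 * (j + 1) by ring, a0, a1]
      intro e
      have := (h2 j).trans ((congrArg σ e).trans (h1 (j + 1)).symm)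
      exact hβ j (by simpa using this)
  have key : ∀ j, h * α j = G (2 * j) * (h * α 0) := by
    intro j
    induction j with
    | zero => simp [G]
    | succ j ih =>
      rw [show 2 * (j + 1) = 2 * j + 1 + 1 by ring, hG, hG, a0, a1, mul_assoc, mul_assoc, ← ih,
        ← hinv (b j), ← h1, ← h2]
      group
  intro i j hi hj e
  have e1 : G (2 * i) = G (2 * j) := by
    have := (key i).symm.trans ((congrArg (h * ·) e).trans (key j))
    exact mul_right_cancel this
  have := hfree a G ha rfl hG _ hi _ hj e1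
  omega

end Pool.Agent.Lib.MP_d2ae2d_co
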