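import Pool.Agent.Lib.MP_d2ae2d_co.Main

set_option autoImplicit false

namespace Pool.Agent.Lib.MP_d2ae2d_co

open Finset Filter
open scoped Topology

/-- The least number of edges forcing a copy of `L` is the extremal number plus one. -/
lemma isLeast_ex {r m : ℕ} {L : Finset (Finset (Fin m))} (hL : L.Nonempty) (n : ℕ) :
    IsLeast {t : ℕ | ∀ H : Finset (Finset (Fin n)), (∀ e ∈ H, e.card = r) → H.card = t →
      ∃ φ : Fin m ↪ Fin n, ∀ e ∈ L, e.map φ ∈ H} (ex r m L n + 1) := by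
  have hb : BddAbove {t : ℕ | ∃ H : Finset (Finset (Fin n)), (∀ A ∈ H, A.card = r) ∧ H.card = t ∧
      ¬ ∃ f : Fin m ↪ Fin n, ∀ e ∈ L, e.map f ∈ H} := ⟨_, ex_bdd r m L n⟩
  have hne : {t : ℕ | ∃ H : Finset (Finset (Fin n)), (∀ A ∈ H, A.card = r) ∧ H.card = t ∧
      ¬ ∃ f : Fin m ↪ Fin n, ∀ e ∈ L, e.map f ∈ H}.Nonempty := by
    obtain ⟨e, he⟩ := hL
    exact ⟨0, ∅, by simp, rfl, fun ⟨f, hf⟩ => by simpa using hf e he⟩
  constructor
  · intro H hH hc
    by_contra h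
    have := le_csSup hb ⟨H, hH, hc, h⟩
    unfold ex at this
    omega
  · intro t ht
    by_contra h
    obtain ⟨H, hH, hc, hno⟩ := Nat.sSup_mem hne hb
    obtain ⟨K, hK, hKc⟩ := Finset.exists_subset_card_eq (s := H) (n := t) (by
      rw [hc]
      unfold ex at h
      omega)
    obtain ⟨φ, hφ⟩ := ht K (fun e he => hH e (hK he)) hKc
    exact hno ⟨φ, fun e he => hK (hφ e he)⟩

lemma step (b : ℝ) (hb : (9 / 10 : ℝ) ^ 9 < b) :
    ∃ (m : ℕ) (G : Finset (Finset (Fin m))) (d : ℝ), (∀ e ∈ G, e.card = 10) ∧ G.Nonempty ∧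
      Tendsto (fun n : ℕ => ((ex 10 m G n + 1 : ℕ) : ℝ) / n.choose 10) atTop (𝓝 d) ∧
      (9 / 10 : ℝ) ^ 9 < d ∧ d < b := by
  obtain ⟨m, G, d, hG, hd, h1, h2⟩ := accumulate hb
  refine ⟨m, G, d, hG, ?_, ?_, h1, h2⟩
  · by_contra h
    rw [Finset.not_nonempty_iff_eq_empty] at h
    subst h
    have h0 : Tendsto (fun n : ℕ => (ex (8 + 2) m ∅ n : ℝ) / n.choose (8 + 2)) atTop (𝓝 0) := by
      refine tendsto_const_nhds.congr' ?_
      filter_upwards [eventually_ge_atTop m] with n hn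
      have : ex (8 + 2) m ∅ n = 0 := by
        refine Nat.le_zero.1 (csSup_le' ?_)
        rintro t ⟨H, -, -, hno⟩
        exact absurd ⟨Fin.castLEEmb hn, by simp⟩ hno
      simp [this]
    have := tendsto_nhds_unique hd h0
    rw [this] at h1
    norm_num at h1
  · have h0 : Tendsto (fun n : ℕ => (1 : ℝ) / n.choose 10) atTop (𝓝 0) :=
      tendsto_const_nhds.div_atTop ((isEquivalent_choose 10).symm.tendsto_atTop
        (((tendsto_pow_atTop (n := 10) (by norm_num)).comp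
          tendsto_natCast_atTop_atTop).atTop_div_const (by positivity)))
    have := hd.add h0
    rw [add_zero] at this
    refine this.congr (fun n => ?_)
    push_cast
    ring

theorem decreasing :
    ∃ (m : ℕ → ℕ) (L : ∀ i, Finset (Finset (Fin (m i)))) (f : ℕ → ℕ → ℕ) (d : ℕ → ℝ),
      (∀ i, ∀ e ∈ L i, e.card = 10) ∧
      (∀ i n, IsLeast {t : ℕ | ∀ H : Finset (Finset (Fin n)), (∀ e ∈ H, e.card = 10) →
        H.card = t → ∃ φ : Fin (m i) ↪ Fin n, ∀ e ∈ L i, e.map φ ∈ H} (f i n)) ∧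
      (∀ i, Tendsto (fun n : ℕ => (f i n : ℝ) / n.choose 10) atTop (𝓝 (d i))) ∧
      StrictAnti d ∧ Tendsto d atTop (𝓝 ((9 / 10 : ℝ) ^ 9)) := by
  choose m G d h1 h2 h3 h4 h5 using step
  let nx : ℕ → {b : ℝ // (9 / 10 : ℝ) ^ 9 < b} → {b : ℝ // (9 / 10 : ℝ) ^ 9 < b} := fun i b =>
    ⟨min (d b.1 b.2) ((9 / 10 : ℝ) ^ 9 + 1 / ((i : ℝ) + 1)),
      lt_min (h4 _ _) (lt_add_of_pos_right _ (by positivity))⟩
  let b : ℕ → {b : ℝ // (9 / 10 : ℝ) ^ 9 < b} := fun i =>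
    Nat.rec ⟨1, by norm_num⟩ nx i
  have hb : ∀ i, b (i + 1) = nx i (b i) := fun i => rfl
  refine ⟨fun i => m (b i).1 (b i).2, fun i => G (b i).1 (b i).2,
    fun i n => ex 10 _ (G (b i).1 (b i).2) n + 1, fun i => d (b i).1 (b i).2,
    fun i => h1 _ _, fun i n => isLeast_ex (h2 _ _) n, fun i => h3 _ _, ?_, ?_⟩
  · refine strictAnti_nat_of_succ_lt (fun i => (h5 _ _).trans_le ?_)
    rw [hb]
    exact min_le_left _ _
  · rw [← tendsto_add_atTop_iff_nat 1]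
    have h0 := (tendsto_const_nhds (x := (9 / 10 : ℝ) ^ 9)).add
      (tendsto_one_div_add_atTop_nhds_zero_nat (𝕜 := ℝ))
    rw [add_zero] at h0
    refine tendsto_of_tendsto_of_tendsto_of_le_of_le tendsto_const_nhds h0
      (fun i => (h4 _ _).le) (fun i => (h5 _ _).le.trans ?_)
    rw [hb]
    exact min_le_right _ _

end Pool.Agent.Lib.MP_d2ae2d_co
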