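import Mathlib

set_option autoImplicit false

namespace Pool.Agent.Lib.MP_d2ae2d_co

open Finset
open scoped BigOperators

lemma jensen_pow {I : Type*} [Fintype I] [Nonempty I] (f : I → ℝ) (hf : ∀ i, 0 ≤ f i) (n : ℕ) :
    (𝔼 i, f i) ^ n ≤ 𝔼 i, f i ^ n := by
  have hc : (0 : ℝ) < Fintype.card I := by exact_mod_cast Fintype.card_pos
  have h := Real.pow_arith_mean_le_arith_mean_pow (univ : Finset I)
    (fun _ => (1 : ℝ) / Fintype.card I) f (fun _ _ => by positivity)
    (by simp [Finset.card_univ]) (fun i _ => hf i) n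
  rw [Fintype.expect_eq_sum_div_card, Fintype.expect_eq_sum_div_card]
  simp only [← Finset.mul_sum] at h
  calc ((∑ i, f i) / Fintype.card I) ^ n = (1 / Fintype.card I * ∑ i, f i) ^ n := by
        congr 1; ring
    _ ≤ 1 / Fintype.card I * ∑ i, f i ^ n := h
    _ = _ := by ring

lemma expect_prod_type {A B : Type*} [Fintype A] [Fintype B] (f : A × B → ℝ) :
    𝔼 p, f p = 𝔼 a, 𝔼 b, f (a, b) := by
  rw [← Finset.expect_product, Finset.univ_product_univ]

lemma expect_fin_succ {N : ℕ} {X : Type*} [Fintype X] (F : (Fin (N + 1) → X) → ℝ) :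
    𝔼 g, F g = 𝔼 a : X, 𝔼 g : Fin N → X, F (Fin.cons a g) := by
  rw [← expect_prod_type (fun p : X × (Fin N → X) => F (Fin.cons p.1 p.2))]
  symm
  exact Fintype.expect_equiv (Fin.consEquiv (fun _ => X)) _ _ (fun p => rfl)

lemma prod_fin_succ_fun {N : ℕ} {Y : Type*} [Fintype Y] (F : (Fin (N + 1) → Y) → ℝ) :
    ∏ g, F g = ∏ g : Fin N → Y, ∏ a : Y, F (Fin.cons a g) := by
  rw [Finset.prod_comm, ← Fintype.prod_prod_type' (fun (a : Y) (g : Fin N → Y) => F (Fin.cons a g))]
  symm
  exact Fintype.prod_equiv (Fin.consEquiv (fun _ => Y)) _ _ (fun p => rfl)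

lemma expect_prod_pow {X : Type*} [Fintype X] (s : ℕ) (b : X → ℝ) :
    𝔼 g : Fin s → X, ∏ j, b (g j) = (𝔼 x, b x) ^ s := by
  rw [Finset.expect_pow]
  simp

/-- The box inequality. -/
lemma box_ineq {X : Type*} [Fintype X] [Nonempty X] (s : ℕ) :
    ∀ (N : ℕ) (a : (Fin N → X) → ℝ), (∀ f, 0 ≤ a f) →
      (𝔼 f, a f) ^ (s ^ N) ≤
        𝔼 g : Fin N → Fin s → X, ∏ σ : Fin N → Fin s, a (fun i => g i (σ i)) := by
  intro N
  induction N with
  | zero =>
    intro a ha
    simp only [pow_zero, pow_one]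
    have h1 : ∀ g : Fin 0 → Fin s → X,
        ∏ σ : Fin 0 → Fin s, a (fun i => g i (σ i)) = a default := by
      intro g
      rw [Fintype.prod_unique]
      congr 1
      exact Subsingleton.elim _ _
    simp only [h1]
    rw [Fintype.expect_const]
    have h2 : ∀ f : Fin 0 → X, a f = a default := fun f => by congr 1; exact Subsingleton.elim _ _
    rw [Finset.expect_congr rfl (fun f _ => h2 f), Fintype.expect_const]
  | succ N ih =>
    intro a ha
    rw [expect_fin_succ (X := Fin s → X)]
    have key : ∀ g0 : Fin s → X,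
        (𝔼 y : Fin N → X, ∏ j, a (Fin.cons (g0 j) y)) ^ (s ^ N) ≤
        𝔼 g : Fin N → Fin s → X, ∏ σ : Fin (N + 1) → Fin s,
          a (fun i => (Fin.cons g0 g : Fin (N + 1) → Fin s → X) i (σ i)) := by
      intro g0
      refine (ih (fun y => ∏ j, a (Fin.cons (g0 j) y))
        (fun y => Finset.prod_nonneg fun j _ => ha _)).trans (le_of_eq ?_)
      refine Finset.expect_congr rfl (fun g _ => ?_)
      rw [prod_fin_succ_fun]
      refine Finset.prod_congr rfl (fun σ _ => Finset.prod_congr rfl (fun j _ => ?_))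
      congr 1
      funext i
      refine Fin.cases ?_ (fun i => ?_) i <;> simp
    refine le_trans ?_ (Finset.expect_le_expect (fun g0 _ => key g0))
    refine le_trans ?_ (jensen_pow _ (fun g0 => Finset.expect_nonneg
      (fun y _ => Finset.prod_nonneg fun j _ => ha _)) _)
    rw [pow_succ', pow_mul]
    refine pow_le_pow_left₀ (pow_nonneg (Finset.expect_nonneg fun f _ => ha f) _) ?_ _
    rw [Finset.expect_comm]
    have h3 : ∀ y : Fin N → X, 𝔼 g0 : Fin s → X, ∏ j, a (Fin.cons (g0 j) y) =
        (𝔼 x : X, a (Fin.cons x y)) ^ s := fun y => expect_prod_pow s (fun x => a (Fin.cons x y))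
    simp only [h3]
    refine le_trans (le_of_eq ?_) (jensen_pow _
      (fun y => Finset.expect_nonneg (fun x _ => ha _)) _)
    rw [expect_fin_succ, Finset.expect_comm]

/-- Probability that two given coordinates of a random map agree. -/
lemma expect_collide {I X : Type*} [Fintype I] [DecidableEq I] [Fintype X] [DecidableEq X]
    [Nonempty X] {p q : I} (hpq : p ≠ q) :
    𝔼 g : I → X, (if g p = g q then (1 : ℝ) else 0) ≤ 1 / Fintype.card X := by
  have hc : (0 : ℝ) < Fintype.card X := by exact_mod_cast Fintype.card_pos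
  rw [Fintype.expect_eq_sum_div_card]
  simp only [Finset.sum_boole]
  have h1 : (univ.filter (fun g : I → X => g p = g q)).card ≤
      Fintype.card ({i // i ≠ p} → X) := by
    rw [← Finset.card_univ]
    refine Finset.card_le_card_of_injOn (fun g i => g i.1) (fun _ _ => by simp) ?_
    intro g hg g' hg' h
    simp only [Finset.coe_filter, Finset.mem_univ, true_and, Set.mem_ofPred_eq] at hg hg'
    funext i
    by_cases hi : i = p
    · subst hi
      rw [hg, hg']
      exact congrFun h ⟨q, hpq.symm⟩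
    · exact congrFun h ⟨i, hi⟩
  have h2 : Fintype.card (I → X) = Fintype.card ({i // i ≠ p} → X) * Fintype.card X := by
    simp only [Fintype.card_fun]
    rw [← pow_succ]
    congr 1
    rw [Fintype.card_subtype_compl, Fintype.card_subtype_eq]
    have : 0 < Fintype.card I := Fintype.card_pos_iff.2 ⟨p⟩
    omega
  have hc2 : (0 : ℝ) < Fintype.card ({i // i ≠ p} → X) := by exact_mod_cast Fintype.card_pos
  rw [h2, div_le_div_iff₀ (by push_cast; positivity) hc]
  have h1' : ((univ.filter (fun g : I → X => g p = g q)).card : ℝ) ≤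
      Fintype.card ({i // i ≠ p} → X) := by exact_mod_cast h1
  push_cast
  nlinarith

/-- A dense set of `N`-tuples contains a box whose prescribed entries are distinct. -/
lemma exists_box {X : Type*} [Fintype X] [DecidableEq X] [Nonempty X] {N m : ℕ}
    (ψ : Fin m → Fin N) (A : (Fin N → X) → Prop) [DecidablePred A]
    (h : (m : ℝ) ^ 2 / Fintype.card X < (𝔼 f, (if A f then (1 : ℝ) else 0)) ^ (m ^ N)) :
    ∃ g : Fin N → Fin m → X, (∀ σ : Fin N → Fin m, A (fun i => g i (σ i))) ∧
      Function.Injective (fun u => g (ψ u) u) := by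
  by_contra hcon
  push Not at hcon
  have h1 := box_ineq m N (fun f => if A f then (1 : ℝ) else 0) (fun f => by positivity)
  have h2 : ∀ g : Fin N → Fin m → X,
      ∏ σ : Fin N → Fin m, (if A (fun i => g i (σ i)) then (1 : ℝ) else 0) ≤
      ∑ u : Fin m, ∑ v : Fin m, (if u ≠ v ∧ g (ψ u) u = g (ψ v) v then (1 : ℝ) else 0) := by
    intro g
    by_cases hg : ∀ σ : Fin N → Fin m, A (fun i => g i (σ i))
    · have := hcon g hg
      simp only [Function.Injective, not_forall] at this
      obtain ⟨u, v, huv, hne⟩ := this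
      simp only [hg, if_true, Finset.prod_const_one]
      calc (1 : ℝ) = (if u ≠ v ∧ g (ψ u) u = g (ψ v) v then (1 : ℝ) else 0) := by
            rw [if_pos ⟨hne, huv⟩]
        _ ≤ ∑ v : Fin m, (if u ≠ v ∧ g (ψ u) u = g (ψ v) v then (1 : ℝ) else 0) :=
            Finset.single_le_sum (f := fun v => (if u ≠ v ∧ g (ψ u) u = g (ψ v) v then (1 : ℝ) else 0))
              (fun _ _ => by positivity) (Finset.mem_univ v)
        _ ≤ _ := Finset.single_le_sum
              (f := fun u => ∑ v : Fin m, (if u ≠ v ∧ g (ψ u) u = g (ψ v) v then (1 : ℝ) else 0))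
              (fun _ _ => Finset.sum_nonneg fun _ _ => by positivity) (Finset.mem_univ u)
    · push Not at hg
      obtain ⟨σ, hσ⟩ := hg
      rw [Finset.prod_eq_zero (Finset.mem_univ σ) (by simp [hσ])]
      exact Finset.sum_nonneg fun _ _ => Finset.sum_nonneg fun _ _ => by positivity
  have h3 := h1.trans (Finset.expect_le_expect (fun g _ => h2 g))
  rw [Finset.expect_sum_comm] at h3
  simp only [Finset.expect_sum_comm] at h3
  have h4 : ∀ u v : Fin m, 𝔼 g : Fin N → Fin m → X,
      (if u ≠ v ∧ g (ψ u) u = g (ψ v) v then (1 : ℝ) else 0) ≤ 1 / Fintype.card X := by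
    intro u v
    by_cases huv : u = v
    · simp [huv]
    · have hne : (ψ u, u) ≠ (ψ v, v) := fun h => huv (congrArg Prod.snd h)
      refine le_trans (le_of_eq ?_) (expect_collide (X := X) hne)
      symm
      refine Fintype.expect_equiv (Equiv.curry (Fin N) (Fin m) X) _ _ (fun g => ?_)
      simp [huv]
  have h5 : ∑ u : Fin m, ∑ v : Fin m, 𝔼 g : Fin N → Fin m → X,
      (if u ≠ v ∧ g (ψ u) u = g (ψ v) v then (1 : ℝ) else 0) ≤
      ∑ _u : Fin m, ∑ _v : Fin m, (1 : ℝ) / Fintype.card X :=
    Finset.sum_le_sum fun u _ => Finset.sum_le_sum fun v _ => h4 u v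
  simp only [Finset.sum_const, Finset.card_univ, Fintype.card_fin, nsmul_eq_mul] at h5
  have h6 : (m : ℝ) * (m * (1 / Fintype.card X)) = (m : ℝ) ^ 2 / Fintype.card X := by ring
  linarith

end Pool.Agent.Lib.MP_d2ae2d_co
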