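import Mathlib
import Pool.Agent.Lib.MP_d2ae2d_co.Box

set_option autoImplicit false

namespace Pool.Agent.Lib.MP_d2ae2d_co

open Finset Filter
open scoped BigOperators Topology

def Unif {V : Type*} (r : ℕ) (H : Finset (Finset V)) : Prop := ∀ e ∈ H, e.card = r

def Hom {U V : Type*} [DecidableEq V] (G : Finset (Finset U)) (H : Finset (Finset V))
    (f : U → V) : Prop := ∀ e ∈ G, e.image f ∈ H

noncomputable def ex (r m : ℕ) (L : Finset (Finset (Fin m))) (n : ℕ) : ℕ :=
  sSup {t : ℕ | ∃ H : Finset (Finset (Fin n)), (∀ A ∈ H, A.card = r) ∧ H.card = t ∧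
    ¬ ∃ f : Fin m ↪ Fin n, ∀ e ∈ L, e.map f ∈ H}

noncomputable def poly {V : Type*} (H : Finset (Finset V)) (x : V → ℝ) : ℝ :=
  ∑ e ∈ H, ∏ v ∈ e, x v

def pull {V : Type*} [DecidableEq V] (r : ℕ) (H : Finset (Finset V)) {N : ℕ} (f : Fin N → V) :
    Finset (Finset (Fin N)) :=
  (univ.powersetCard r).filter (fun e => e.image f ∈ H)

lemma Hom.comp {U V W : Type*} [DecidableEq V] [DecidableEq W] {G : Finset (Finset U)}
    {H : Finset (Finset V)} {K : Finset (Finset W)} {f : U → V} {g : V → W}
    (hf : Hom G H f) (hg : Hom H K g) : Hom G K (g ∘ f) := by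
  intro e he
  rw [← Finset.image_image]
  exact hg _ (hf e he)

lemma pull_unif {V : Type*} [DecidableEq V] (r : ℕ) (H : Finset (Finset V)) {N : ℕ}
    (f : Fin N → V) : Unif r (pull r H f) := by
  intro e he
  simp only [pull, Finset.mem_filter, Finset.mem_powersetCard] at he
  exact he.1.2

lemma pull_hom {V : Type*} [DecidableEq V] (r : ℕ) (H : Finset (Finset V)) {N : ℕ}
    (f : Fin N → V) : Hom (pull r H f) H f := by
  intro e he
  simp only [pull, Finset.mem_filter] at he
  exact he.2

lemma Unif.card_le {r N : ℕ} {F : Finset (Finset (Fin N))} (hF : Unif r F) :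
    F.card ≤ N.choose r := by
  have : F ⊆ univ.powersetCard r := by
    intro e he
    simp [Finset.mem_powersetCard, hF e he]
  simpa using Finset.card_le_card this

lemma card_maps_onto {I V : Type*} [Fintype I] [DecidableEq I] [Fintype V] [DecidableEq V]
    (A : Finset V) (hA : A.card = Fintype.card I) :
    (univ.filter (fun g : I → V => univ.image g = A)).card = (Fintype.card I).factorial := by
  have e0 : I ≃ A := Fintype.equivOfCardEq (by simp [hA])
  rw [← Fintype.card_equiv e0, ← Finset.card_univ]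
  symm
  refine Finset.card_bij (fun σ _ => fun i => (σ i : V)) ?_ ?_ ?_
  · intro σ _
    simp only [Finset.mem_filter, Finset.mem_univ, true_and]
    ext v
    simp only [Finset.mem_image, Finset.mem_univ, true_and]
    constructor
    · rintro ⟨i, rfl⟩
      exact (σ i).2
    · intro hv
      exact ⟨σ.symm ⟨v, hv⟩, by simp⟩
  · intro σ _ τ _ h
    ext i
    exact congrFun h i
  · intro g hg
    simp only [Finset.mem_filter, Finset.mem_univ, true_and] at hg
    have hinj : Function.Injective g := by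
      have : (univ.image g).card = (univ : Finset I).card := by rw [hg, hA, Finset.card_univ]
      have := Finset.card_image_iff.1 this
      simpa using this
    have hmem : ∀ i, g i ∈ A := fun i => by rw [← hg]; simp
    refine ⟨Equiv.ofBijective (fun i => ⟨g i, hmem i⟩) ⟨?_, ?_⟩, Finset.mem_univ _, rfl⟩
    · intro i j h
      exact hinj (congrArg Subtype.val h)
    · rintro ⟨v, hv⟩
      rw [← hg] at hv
      obtain ⟨i, -, rfl⟩ := Finset.mem_image.1 hv
      exact ⟨i, rfl⟩

lemma sum_tuples {I V : Type*} [Fintype I] [DecidableEq I] [Fintype V] [DecidableEq V]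
    {r : ℕ} (hI : Fintype.card I = r) {H : Finset (Finset V)} (hH : Unif r H) (x : V → ℝ) :
    ∑ g : I → V, (∏ i, x (g i)) * (if univ.image g ∈ H then (1 : ℝ) else 0) =
      r.factorial * poly H x := by
  have h1 : ∀ g : I → V, (∏ i, x (g i)) * (if univ.image g ∈ H then (1 : ℝ) else 0) =
      ∑ A ∈ H, (if univ.image g = A then ∏ v ∈ A, x v else 0) := by
    intro g
    rw [Finset.sum_ite_eq]
    split_ifs with h
    · rw [mul_one, Finset.prod_image]
      have : (univ.image g).card = (univ : Finset I).card := by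
        rw [hH _ h, Finset.card_univ, hI]
      exact Finset.card_image_iff.1 this
    · simp
  simp only [h1]
  rw [Finset.sum_comm, poly, Finset.mul_sum]
  refine Finset.sum_congr rfl (fun A hA => ?_)
  rw [← Finset.sum_filter, Finset.sum_const, card_maps_onto A (by rw [hH A hA, hI]), hI,
    nsmul_eq_mul]

lemma sum_weights {I V : Type*} [Fintype I] [DecidableEq I] [Fintype V] (x : V → ℝ)
    (hx : ∑ v, x v = 1) : ∑ g : I → V, ∏ i, x (g i) = 1 := by
  have := Finset.prod_univ_sum (fun _ : I => (univ : Finset V)) (fun _ v => x v)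
  rw [Fintype.piFinset_univ] at this
  rw [← this]
  simp [hx]

lemma sum_marginal {I V : Type*} [Fintype I] [DecidableEq I] [Fintype V] (p : I → Prop)
    [DecidablePred p] (x : V → ℝ) (hx : ∑ v, x v = 1) (g : ({i // p i} → V) → ℝ) :
    ∑ f : I → V, (∏ i, x (f i)) * g (fun i => f i) =
      ∑ t : {i // p i} → V, (∏ i, x (t i)) * g t := by
  rw [← Fintype.sum_equiv (Equiv.piEquivPiSubtypeProd p (fun _ => V)).symm
    (fun q => (∏ i, x (q.1 i)) * g q.1 * ∏ i, x (q.2 i))]
  · rw [Fintype.sum_prod_type]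
    refine Finset.sum_congr rfl (fun t _ => ?_)
    have := Finset.mul_sum (univ : Finset ({i // ¬ p i} → V)) (fun t2 => ∏ i, x (t2 i))
      ((∏ i, x (t i)) * g t)
    rw [sum_weights x hx, mul_one] at this
    exact this.symm
  · rintro ⟨g1, g2⟩
    rw [← Fintype.prod_subtype_mul_prod_subtype p]
    have h2 : ∀ i : {i // p i},
        (Equiv.piEquivPiSubtypeProd p (fun _ => V)).symm (g1, g2) i = g1 i := by
      rintro ⟨i, hi⟩
      simp [hi]
    have h3 : ∀ i : {i // ¬ p i},
        (Equiv.piEquivPiSubtypeProd p (fun _ => V)).symm (g1, g2) i = g2 i := by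
      rintro ⟨i, hi⟩
      simp [hi]
    simp only [h2, h3]
    ring

lemma sum_edge_aux {I V : Type*} [Fintype I] [DecidableEq I] [Fintype V] [DecidableEq V]
    {r : ℕ} {H : Finset (Finset V)} (hH : Unif r H) (x : V → ℝ) (hx : ∑ v, x v = 1)
    (p : I → Prop) [DecidablePred p] (he : (univ.filter p).card = r) :
    ∑ f : I → V, (∏ i, x (f i)) * (if (univ.filter p).image f ∈ H then (1 : ℝ) else 0) =
      r.factorial * poly H x := by
  have h1 := sum_marginal p x hx
    (fun t => if univ.image t ∈ H then (1 : ℝ) else 0)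
  rw [sum_tuples (r := r) (by rw [Fintype.card_subtype, he]) hH x] at h1
  rw [← h1]
  refine Finset.sum_congr rfl (fun f _ => ?_)
  have : (univ.filter p).image f = univ.image (fun i : {i // p i} => f i) := by
    ext v
    simp only [Finset.mem_image, Finset.mem_filter, Finset.mem_univ, true_and, Subtype.exists,
      exists_prop]
  rw [this]

lemma sum_edge {V : Type*} [Fintype V] [DecidableEq V] {r N : ℕ} {H : Finset (Finset V)}
    (hH : Unif r H) (x : V → ℝ) (hx : ∑ v, x v = 1) (e : Finset (Fin N)) (he : e.card = r) :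
    ∑ f : Fin N → V, (∏ i, x (f i)) * (if e.image f ∈ H then (1 : ℝ) else 0) =
      r.factorial * poly H x := by
  have h0 : univ.filter (fun i => i ∈ e) = e := by simp
  have h1 := sum_edge_aux hH x hx (fun i => i ∈ e) (by rw [h0, he])
  rw [h0] at h1
  exact h1

lemma sum_pull {V : Type*} [Fintype V] [DecidableEq V] {r : ℕ} (N : ℕ) {H : Finset (Finset V)}
    (hH : Unif r H) (x : V → ℝ) (hx : ∑ v, x v = 1) :
    ∑ f : Fin N → V, (∏ i, x (f i)) * ((pull r H f).card : ℝ) =
      N.choose r * (r.factorial * poly H x) := by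
  have h1 : ∀ f : Fin N → V, ((pull r H f).card : ℝ) =
      ∑ e ∈ (univ : Finset (Fin N)).powersetCard r, (if e.image f ∈ H then (1 : ℝ) else 0) := by
    intro f
    simp [pull]
  simp only [h1, Finset.mul_sum]
  rw [Finset.sum_comm, Finset.sum_congr rfl
    (fun e he => sum_edge hH x hx e (Finset.mem_powersetCard.1 he).2)]
  simp

lemma ex_bdd (r m : ℕ) (L : Finset (Finset (Fin m))) (n : ℕ) :
    ∀ t ∈ {t : ℕ | ∃ H : Finset (Finset (Fin n)), (∀ A ∈ H, A.card = r) ∧ H.card = t ∧
      ¬ ∃ f : Fin m ↪ Fin n, ∀ e ∈ L, e.map f ∈ H}, t ≤ n.choose r := by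
  rintro t ⟨H, hH, rfl, -⟩
  exact Unif.card_le hH

lemma ex_le_choose (r m : ℕ) (L : Finset (Finset (Fin m))) (n : ℕ) : ex r m L n ≤ n.choose r :=
  csSup_le' (ex_bdd r m L n)

/-- Blow-up lower bound. -/
lemma lower_bound {V : Type*} [Fintype V] [DecidableEq V] {r m : ℕ}
    {G : Finset (Finset (Fin m))} {H : Finset (Finset V)} (hH : Unif r H)
    (hno : ¬ ∃ φ, Hom G H φ) (x : V → ℝ) (hx0 : ∀ v, 0 ≤ x v) (hx : ∑ v, x v = 1) (n : ℕ) :
    n.choose r * (r.factorial * poly H x) ≤ ex r m G n := by
  rw [← sum_pull n hH x hx]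
  have h1 : ∀ f : Fin n → V, ((pull r H f).card : ℝ) ≤ ex r m G n := by
    intro f
    have : (pull r H f).card ≤ ex r m G n := by
      refine le_csSup ⟨_, ex_bdd r m G n⟩ ⟨pull r H f, pull_unif r H f, rfl, ?_⟩
      rintro ⟨g, hg⟩
      refine hno ⟨f ∘ g, Hom.comp (fun e he => ?_) (pull_hom r H f)⟩
      rw [← Finset.map_eq_image]
      exact hg e he
    exact_mod_cast this
  calc ∑ f : Fin n → V, (∏ i, x (f i)) * ((pull r H f).card : ℝ)
      ≤ ∑ f : Fin n → V, (∏ i, x (f i)) * (ex r m G n : ℝ) :=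
        Finset.sum_le_sum fun f _ => mul_le_mul_of_nonneg_left (h1 f)
          (Finset.prod_nonneg fun i _ => hx0 _)
    _ = ex r m G n := by rw [← Finset.sum_mul, sum_weights x hx, one_mul]

lemma poly_unif {r n : ℕ} {H : Finset (Finset (Fin n))} (hH : Unif r H) :
    poly H (fun _ => (1 : ℝ) / n) = H.card / (n : ℝ) ^ r := by
  rw [poly, Finset.sum_congr rfl (g := fun _ => ((1 : ℝ) / n) ^ r)
    (fun e he => by rw [Finset.prod_const, hH e he])]
  simp [div_eq_mul_inv]

lemma expect_pull {r n : ℕ} (hn : 0 < n) (N : ℕ) {H : Finset (Finset (Fin n))} (hH : Unif r H) :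
    𝔼 f : Fin N → Fin n, ((pull r H f).card : ℝ) =
      N.choose r * (r.factorial * (H.card / (n : ℝ) ^ r)) := by
  have hn' : (n : ℝ) ≠ 0 := by positivity
  rw [← poly_unif hH, ← sum_pull N hH _ (by simp [hn']), Fintype.expect_eq_sum_div_card,
    Finset.sum_div]
  refine Finset.sum_congr rfl (fun f _ => ?_)
  simp [div_eq_mul_inv, mul_comm]

/-- If `G` maps to `F` and `H` is `G`-free, then few maps are homomorphisms from `F` to `H`. -/
lemma few_homs {r m N n : ℕ} (hn : 0 < n) {G : Finset (Finset (Fin m))} (hG : Unif r G)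
    {F : Finset (Finset (Fin N))} (hF : Unif r F) {ψ : Fin m → Fin N} (hψ : Hom G F ψ)
    {H : Finset (Finset (Fin n))} (hfree : ¬ ∃ f : Fin m ↪ Fin n, ∀ e ∈ G, e.map f ∈ H)
    {η : ℝ} (hη0 : 0 ≤ η) (hη : (m : ℝ) ^ 2 / n < η ^ (m ^ N)) :
    𝔼 f : Fin N → Fin n, (if pull r H f = F then (1 : ℝ) else 0) ≤ η := by
  by_contra hcon
  push Not at hcon
  have : Nonempty (Fin n) := ⟨⟨0, hn⟩⟩
  obtain ⟨g, hg, hinj⟩ := exists_box (X := Fin n) ψ (fun f => pull r H f = F) (by
    rw [Fintype.card_fin]
    exact hη.trans_le (pow_le_pow_left₀ hη0 hcon.le _))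
  refine hfree ⟨⟨_, hinj⟩, fun e he => ?_⟩
  have hinjψ : Set.InjOn ψ e := by
    rw [← Finset.card_image_iff, hF _ (hψ e he), hG e he]
  by_cases hm : m = 0
  · subst hm
    have he0 : e = ∅ := Finset.eq_empty_of_forall_notMem (fun i => i.elim0)
    have hN : ∀ i : Fin N, False ∨ True := fun _ => Or.inr trivial
    have h0 : e.image ψ ∈ F := hψ e he
    have hr : r = 0 := by rw [← hG e he, he0]; rfl
    subst he0
    by_cases hN0 : N = 0
    · subst hN0
      have := pull_hom r H (fun i => g i ((fun i : Fin 0 => i.elim0) i)) _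
        ((hg (fun i => i.elim0)).symm ▸ h0)
      simpa using this
    · exfalso
      have h1 : (0 : ℕ) ^ N = 0 := zero_pow hN0
      have hle : 𝔼 f : Fin N → Fin n, (if pull r H f = F then (1 : ℝ) else 0) ≤ η := by
        by_cases hH : (∅ : Finset (Fin n)) ∈ H
        · exact absurd ⟨⟨fun i => i.elim0, fun i => i.elim0⟩, fun e he => by
            have : e = ∅ := Finset.eq_empty_of_forall_notMem (fun i => i.elim0)
            subst this
            simpa using hH⟩ hfree
        · refine le_trans (le_of_eq ?_) hη0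
          refine Finset.expect_eq_zero (fun f _ => if_neg ?_)
          intro hf
          have := pull_hom r H f _ (hf.symm ▸ h0)
          exact hH (by simpa using this)
      linarith
  · have : Nonempty (Fin m) := ⟨⟨0, Nat.pos_of_ne_zero hm⟩⟩
    have := pull_hom r H _ _ ((hg (Function.invFunOn ψ e)).symm ▸ hψ e he)
    rw [Finset.image_image] at this
    rw [Finset.map_eq_image]
    convert this using 1
    refine Finset.image_congr (fun u hu => ?_)
    simp only [Function.Embedding.coeFn_mk, Function.comp]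
    rw [hinjψ.leftInvOn_invFunOn hu]

end Pool.Agent.Lib.MP_d2ae2d_co
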