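import Mathlib
import Pool.Agent.Lib.MP_d2ae2d_co.Basic

set_option autoImplicit false

namespace Pool.Agent.Lib.MP_d2ae2d_co

open Finset Filter
open scoped BigOperators Topology

lemma upper_aux {r m N n : ℕ} (hn : 0 < n) (hN : r ≤ N) {G : Finset (Finset (Fin m))}
    (hG : Unif r G) {γ : ℝ} (hγ0 : 0 ≤ γ)
    (hγ : ∀ F : Finset (Finset (Fin N)), Unif r F → (∃ ψ, Hom G F ψ) ∨ (F.card : ℝ) ≤ γ)
    {H : Finset (Finset (Fin n))} (hH : Unif r H)
    (hfree : ¬ ∃ f : Fin m ↪ Fin n, ∀ e ∈ G, e.map f ∈ H)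
    {η : ℝ} (hη0 : 0 ≤ η) (hη : (m : ℝ) ^ 2 / n < η ^ (m ^ N)) :
    r.factorial * (H.card / (n : ℝ) ^ r) ≤
      γ / N.choose r + Fintype.card (Finset (Finset (Fin N))) * η := by
  classical
  have : Nonempty (Fin n) := ⟨⟨0, hn⟩⟩
  have hC : (0 : ℝ) < N.choose r := by exact_mod_cast Nat.choose_pos hN
  set good : Finset (Finset (Finset (Fin N))) :=
    univ.filter (fun F => Unif r F ∧ ∃ ψ, Hom G F ψ) with hgood
  have h1 : ∀ f : Fin N → Fin n, ((pull r H f).card : ℝ) ≤
      γ + N.choose r * ∑ F ∈ good, (if pull r H f = F then (1 : ℝ) else 0) := by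
    intro f
    rw [Finset.sum_ite_eq]
    rcases hγ _ (pull_unif r H f) with h | h
    · rw [if_pos (by simp only [hgood, Finset.mem_filter, Finset.mem_univ, true_and]
                     exact ⟨pull_unif r H f, h⟩)]
      have : ((pull r H f).card : ℝ) ≤ N.choose r := by
        exact_mod_cast (pull_unif r H f).card_le
      linarith
    · have : (0 : ℝ) ≤ N.choose r * (if pull r H f ∈ good then (1 : ℝ) else 0) := by positivity
      linarith
  have h2 := Finset.expect_le_expect (s := univ) (fun f _ => h1 f)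
  rw [expect_pull hn N hH, Finset.expect_add_distrib, Fintype.expect_const, ← Finset.mul_expect,
    Finset.expect_sum_comm] at h2
  have h3 : ∑ F ∈ good, 𝔼 f : Fin N → Fin n, (if pull r H f = F then (1 : ℝ) else 0) ≤
      Fintype.card (Finset (Finset (Fin N))) * η := by
    calc _ ≤ ∑ _F ∈ good, η := Finset.sum_le_sum (fun F hF => by
          simp only [hgood, Finset.mem_filter, Finset.mem_univ, true_and] at hF
          obtain ⟨hF, ψ, hψ⟩ := hF
          exact few_homs hn hG hF hψ hfree hη0 hη)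
      _ = good.card * η := by simp
      _ ≤ _ := by
          refine mul_le_mul_of_nonneg_right ?_ hη0
          exact_mod_cast Finset.card_le_univ good
  have h4 := mul_le_mul_of_nonneg_left h3 hC.le
  rw [div_add' _ _ _ hC.ne', le_div_iff₀ hC]
  nlinarith

noncomputable def cc (r n : ℕ) : ℝ := r.factorial * n.choose r / (n : ℝ) ^ r

lemma cc_tendsto (r : ℕ) : Tendsto (cc r) atTop (𝓝 1) := by
  have h := isEquivalent_choose r
  have h2 : ∀ᶠ n : ℕ in atTop, ((n : ℝ) ^ r / r.factorial) ≠ 0 := by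
    filter_upwards [eventually_gt_atTop 0] with n hn
    positivity
  have h3 := (Asymptotics.isEquivalent_iff_tendsto_one h2).1 h
  refine h3.congr (fun n => ?_)
  simp only [cc, Pi.div_apply]
  field_simp

lemma cc_pos {r n : ℕ} (hn : 0 < n) (h : r ≤ n) : 0 < cc r n := by
  have hC : (0 : ℝ) < n.choose r := by exact_mod_cast Nat.choose_pos h
  unfold cc
  positivity

lemma upper_bound {r m N : ℕ} (hN : r ≤ N) {G : Finset (Finset (Fin m))}
    (hG : Unif r G) {γ : ℝ} (hγ0 : 0 ≤ γ)
    (hγ : ∀ F : Finset (Finset (Fin N)), Unif r F → (∃ ψ, Hom G F ψ) ∨ (F.card : ℝ) ≤ γ)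
    {b : ℝ} (hb : γ / N.choose r < b) :
    ∀ᶠ n : ℕ in atTop, (ex r m G n : ℝ) / n.choose r ≤ b := by
  have hC : (0 : ℝ) < N.choose r := by exact_mod_cast Nat.choose_pos hN
  set K : ℝ := (Fintype.card (Finset (Finset (Fin N))) : ℝ) with hK
  have hKpos : 0 < K := by rw [hK]; exact_mod_cast Fintype.card_pos
  set a : ℝ := γ / N.choose r with ha
  have ha0 : 0 ≤ a := by positivity
  set η : ℝ := (b - a) / (2 * K) with hη
  have hη0 : 0 < η := by have := sub_pos.2 hb; positivity
  have hlt : a + K * η < b := by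
    rw [hη]; field_simp; nlinarith
  have e1 : ∀ᶠ n : ℕ in atTop, (m : ℝ) ^ 2 / n < η ^ (m ^ N) :=
    (tendsto_const_div_atTop_nhds_zero_nat _).eventually (gt_mem_nhds (by positivity))
  have e2 : ∀ᶠ n : ℕ in atTop, a + K * η < b * cc r n := by
    have : Tendsto (fun n => b * cc r n) atTop (𝓝 (b * 1)) := (cc_tendsto r).const_mul b
    rw [mul_one] at this
    exact this.eventually (lt_mem_nhds hlt)
  filter_upwards [e1, e2, eventually_gt_atTop 0, eventually_ge_atTop r] with n h1 h2 hn hrn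
  have hCn : (0 : ℝ) < n.choose r := by exact_mod_cast Nat.choose_pos hrn
  by_cases hne : {t : ℕ | ∃ H : Finset (Finset (Fin n)), (∀ A ∈ H, A.card = r) ∧ H.card = t ∧
      ¬ ∃ f : Fin m ↪ Fin n, ∀ e ∈ G, e.map f ∈ H}.Nonempty
  · obtain ⟨H, hH, hcard, hfree⟩ := Nat.sSup_mem hne ⟨_, ex_bdd r m G n⟩
    have h3 := upper_aux hn hN hG hγ0 hγ hH hfree hη0.le h1
    have h4 : (ex r m G n : ℝ) = H.card := by rw [hcard]; rfl
    have h5 := h3.trans h2.le
    rw [h4, div_le_iff₀ hCn]
    have hf : (0 : ℝ) < r.factorial := by positivity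
    have hp : (0 : ℝ) < (n : ℝ) ^ r := by positivity
    unfold cc at h5
    rw [← mul_div_assoc, ← mul_div_assoc, div_le_div_iff_of_pos_right hp] at h5
    nlinarith
  · have h4 : ex r m G n = 0 := by
      unfold ex
      rw [Set.not_nonempty_iff_eq_empty.1 hne]
      simp
    rw [h4]
    simp only [Nat.cast_zero, zero_div]
    linarith

lemma exists_limit {r m : ℕ} {G : Finset (Finset (Fin m))} (hG : Unif r G) (hne : G.Nonempty) :
    ∃ d : ℝ, Tendsto (fun n : ℕ => (ex r m G n : ℝ) / n.choose r) atTop (𝓝 d) := by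
  set B : Set ℝ := {b | ∃ N : ℕ, 0 < N ∧ ∃ F : Finset (Finset (Fin N)), Unif r F ∧
    (¬ ∃ ψ, Hom G F ψ) ∧ b = r.factorial * (F.card / (N : ℝ) ^ r)} with hB
  have hlow : ∀ b ∈ B, ∀ n, r ≤ n → b ≤ (ex r m G n : ℝ) / n.choose r := by
    rintro b ⟨N, hN, F, hF, hno, rfl⟩ n hn
    have hCn : (0 : ℝ) < n.choose r := by exact_mod_cast Nat.choose_pos hn
    have hN' : (N : ℝ) ≠ 0 := by positivity
    have := lower_bound hF hno (fun _ => (1 : ℝ) / N) (fun _ => by positivity) (by simp [hN']) n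
    rw [poly_unif hF] at this
    rw [le_div_iff₀ hCn]
    linarith
  have hBne : (0 : ℝ) ∈ B := by
    refine ⟨1, one_pos, ∅, fun e he => by simp at he, ?_, by simp⟩
    rintro ⟨ψ, hψ⟩
    obtain ⟨e, he⟩ := hne
    simpa using hψ e he
  have hbdd : BddAbove B := ⟨_, fun b hb => hlow b hb r le_rfl⟩
  have hβ0 : 0 ≤ sSup B := le_csSup hbdd hBne
  refine ⟨sSup B, tendsto_order.2 ⟨fun a ha => ?_, fun b hb => ?_⟩⟩
  · filter_upwards [eventually_ge_atTop r] with n hn
    exact ha.trans_le (csSup_le ⟨0, hBne⟩ (fun b hb => hlow b hb n hn))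
  · obtain ⟨b', hb1, hb2⟩ := exists_between hb
    have e2 : ∀ᶠ n : ℕ in atTop, sSup B < b' * cc r n := by
      have : Tendsto (fun n => b' * cc r n) atTop (𝓝 (b' * 1)) := (cc_tendsto r).const_mul b'
      rw [mul_one] at this
      exact this.eventually (lt_mem_nhds hb1)
    obtain ⟨N, h2, hN, hrN⟩ := (e2.and ((eventually_gt_atTop 0).and (eventually_ge_atTop r))).exists
    have hC : (0 : ℝ) < N.choose r := by exact_mod_cast Nat.choose_pos hrN
    have hf : (0 : ℝ) < r.factorial := by positivity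
    have hp : (0 : ℝ) < (N : ℝ) ^ r := by positivity
    have := upper_bound hrN hG (γ := sSup B * (N : ℝ) ^ r / r.factorial) (by positivity)
      (fun F hF => by
        by_cases h : ∃ ψ, Hom G F ψ
        · exact Or.inl h
        · right
          have := le_csSup hbdd ⟨N, hN, F, hF, h, rfl⟩
          rw [← mul_div_assoc, div_le_iff₀ hp] at this
          rw [le_div_iff₀ hf]
          linarith) (b := b') (by
        unfold cc at h2
        rw [← mul_div_assoc, lt_div_iff₀ hp] at h2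
        rw [div_lt_iff₀ hC, div_lt_iff₀ hf]
        linarith)
    filter_upwards [this] with n hn
    exact hn.trans_lt hb2

end Pool.Agent.Lib.MP_d2ae2d_co
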