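import Mathlib
import Pool.Agent.Lib.MP_d2ae2d_co.Basic

set_option autoImplicit false

namespace Pool.Agent.Lib.MP_d2ae2d_co

open Finset

def Ed {V : Type*} [DecidableEq V] {k : ℕ} (H : Finset (Finset V)) (u v : V) (d : Fin k → V) :
    Prop := insert u (insert v (univ.image d)) ∈ H

def Adj {V : Type*} [DecidableEq V] (k : ℕ) (H : Finset (Finset V)) (u v : V) : Prop :=
  ∃ d : Fin k → V, Ed H u v d

def QW {V : Type*} [DecidableEq V] (k : ℕ) (H : Finset (Finset V)) (W : Set V) : Prop :=
  W.Nonempty ∧ ∀ u ∈ W, ∃ (d : Fin k → V) (z : ℕ → V), (∀ j, d j ∈ W ∧ Adj k H u (d j)) ∧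
    ∀ i, z i ∈ W ∧ Adj k H u (z i) ∧ Ed H (z i) (z (i + 1)) d ∧ Adj k H (z i) (z (i + 2))

section
variable {U V : Type*} [DecidableEq U] [DecidableEq V] {k : ℕ}

lemma Ed.map {G : Finset (Finset U)} {H : Finset (Finset V)} {f : U → V} (hf : Hom G H f)
    {u v : U} {d : Fin k → U} (h : Ed G u v d) : Ed H (f u) (f v) (fun j => f (d j)) := by
  have := hf _ h
  rw [Finset.image_insert, Finset.image_insert, Finset.image_image] at this
  exact this

lemma Adj.map {G : Finset (Finset U)} {H : Finset (Finset V)} {f : U → V} (hf : Hom G H f)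
    {u v : U} (h : Adj k G u v) : Adj k H (f u) (f v) := by
  obtain ⟨d, hd⟩ := h
  exact ⟨_, hd.map hf⟩

lemma QW.map {G : Finset (Finset U)} {H : Finset (Finset V)} {f : U → V} (hf : Hom G H f)
    {W : Set U} (h : QW k G W) : QW k H (f '' W) := by
  refine ⟨h.1.image f, ?_⟩
  rintro _ ⟨u, hu, rfl⟩
  obtain ⟨d, z, hd, hz⟩ := h.2 u hu
  exact ⟨fun j => f (d j), fun i => f (z i),
    fun j => ⟨⟨_, (hd j).1, rfl⟩, (hd j).2.map hf⟩,
    fun i => ⟨⟨_, (hz i).1, rfl⟩, (hz i).2.1.map hf, (hz i).2.2.1.map hf, (hz i).2.2.2.map hf⟩⟩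

lemma card_ed_le (u v : V) (d : Fin k → V) : (insert u (insert v (univ.image d))).card ≤ k + 2 := by
  have h1 := Finset.card_insert_le u (insert v (univ.image d))
  have h2 := Finset.card_insert_le v (univ.image d)
  have h3 : (univ.image d).card ≤ k := by simpa using Finset.card_image_le (s := univ) (f := d)
  omega

lemma Ed.ne {H : Finset (Finset V)} (hH : Unif (k + 2) H) {u v : V} {d : Fin k → V}
    (h : Ed H u v d) : u ≠ v := by
  rintro rfl
  have h1 := hH _ h
  rw [Finset.insert_idem] at h1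
  have h2 := Finset.card_insert_le u (univ.image d)
  have h3 : (univ.image d).card ≤ k := by simpa using Finset.card_image_le (s := univ) (f := d)
  omega

lemma Adj.ne {H : Finset (Finset V)} (hH : Unif (k + 2) H) {u v : V} (h : Adj k H u v) :
    u ≠ v := by
  obtain ⟨d, hd⟩ := h
  exact hd.ne hH

lemma exists_enum (D : Finset V) (hD : D.card = k) : ∃ d : Fin k → V, univ.image d = D := by
  let e := D.equivFinOfCardEq hD
  refine ⟨fun j => e.symm j, ?_⟩
  ext v
  simp only [Finset.mem_image, Finset.mem_univ, true_and]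
  constructor
  · rintro ⟨j, rfl⟩
    exact (e.symm j).2
  · intro hv
    exact ⟨e ⟨v, hv⟩, by simp⟩

lemma adj_of_mem {H : Finset (Finset V)} (hH : Unif (k + 2) H) {u v : V} (huv : u ≠ v)
    {e : Finset V} (he : e ∈ H) (hu : u ∈ e) (hv : v ∈ e) : Adj k H u v := by
  have hv' : v ∈ e.erase u := Finset.mem_erase.2 ⟨huv.symm, hv⟩
  obtain ⟨d, hd⟩ := exists_enum (k := k) ((e.erase u).erase v) (by
    rw [Finset.card_erase_of_mem hv', Finset.card_erase_of_mem hu, hH e he]
    omega)
  refine ⟨d, ?_⟩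
  unfold Ed
  rw [hd, Finset.insert_erase hv', Finset.insert_erase hu]
  exact he

lemma QW.nonempty {H : Finset (Finset V)} {W : Set V} (h : QW k H W) : H.Nonempty := by
  obtain ⟨u, hu⟩ := h.1
  obtain ⟨d, z, -, hz⟩ := h.2 u hu
  exact ⟨_, (hz 0).2.2.1⟩

end

/-- The categorical product of finitely many hypergraphs with property `Q` has property `Q`. -/
lemma exists_product {I V : Type*} [Fintype I] [Nonempty I] [Fintype V] [DecidableEq V] {k : ℕ}
    (H : I → Finset (Finset V)) (hH : ∀ i, Unif (k + 2) (H i)) (hQ : ∀ i, ∃ W, QW k (H i) W) :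
    ∃ (m : ℕ) (G : Finset (Finset (Fin m))), Unif (k + 2) G ∧ (∃ W, QW k G W) ∧
      ∀ i, ∃ ψ, Hom G (H i) ψ := by
  classical
  choose W hW using hQ
  set P : Finset (Finset (I → V)) := univ.filter (fun e => ∃ (u v : I → V) (d : Fin k → I → V),
    e = insert u (insert v (univ.image d)) ∧ ∀ i, Ed (H i) (u i) (v i) (fun j => d j i)) with hP
  have hhom : ∀ i, Hom P (H i) (fun u => u i) := by
    intro i e he
    simp only [hP, Finset.mem_filter, Finset.mem_univ, true_and] at he
    obtain ⟨u, v, d, rfl, h⟩ := he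
    rw [Finset.image_insert, Finset.image_insert, Finset.image_image]
    exact h i
  have hunif : Unif (k + 2) P := by
    intro e he
    obtain ⟨i⟩ := (inferInstance : Nonempty I)
    have h1 := hH i _ (hhom i e he)
    have h2 := Finset.card_image_le (s := e) (f := fun u => u i)
    simp only [hP, Finset.mem_filter, Finset.mem_univ, true_and] at he
    obtain ⟨u, v, d, rfl, h⟩ := he
    have h3 := card_ed_le u v d
    omega
  have hed : ∀ (u v : I → V) (d : Fin k → I → V),
      (∀ i, Ed (H i) (u i) (v i) (fun j => d j i)) → Ed P u v d := by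
    intro u v d h
    exact Finset.mem_filter.2 ⟨Finset.mem_univ _, u, v, d, rfl, h⟩
  have hadj : ∀ (u v : I → V), (∀ i, Adj k (H i) (u i) (v i)) → Adj k P u v := by
    intro u v h
    choose d hd using h
    exact ⟨fun j i => d i j, hed _ _ _ hd⟩
  have hQP : QW k P {u | ∀ i, u i ∈ W i} := by
    refine ⟨?_, fun u hu => ?_⟩
    · choose w hw using fun i => (hW i).1
      exact ⟨w, hw⟩
    · choose d z hd hz using fun i => (hW i).2 (u i) (hu i)
      refine ⟨fun j i => d i j, fun n i => z i n, fun j => ⟨fun i => (hd i j).1,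
        hadj _ _ fun i => (hd i j).2⟩, fun n => ⟨fun i => (hz i n).1,
        hadj _ _ fun i => (hz i n).2.1, hed _ _ _ fun i => (hz i n).2.2.1,
        hadj _ _ fun i => (hz i n).2.2.2⟩⟩
  let e := Fintype.equivFin (I → V)
  have h1 : Hom P (P.image (Finset.image e)) e := fun A hA => Finset.mem_image_of_mem _ hA
  have h2 : Hom (P.image (Finset.image e)) P e.symm := by
    intro A hA
    obtain ⟨B, hB, rfl⟩ := Finset.mem_image.1 hA
    rw [Finset.image_image]
    simpa using hB
  refine ⟨_, P.image (Finset.image e), ?_, ⟨_, hQP.map h1⟩, fun i => ⟨_, h2.comp (hhom i)⟩⟩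
  intro A hA
  obtain ⟨B, hB, rfl⟩ := Finset.mem_image.1 hA
  rw [Finset.card_image_of_injective _ e.injective, hunif B hB]

end Pool.Agent.Lib.MP_d2ae2d_co
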