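import Mathlib
import Pool.Agent.Lib.MP_d2ae2d_co.QDef

set_option autoImplicit false

namespace Pool.Agent.Lib.MP_d2ae2d_co

open Finset

section
variable {V : Type*} [DecidableEq V]

def shift (x : V → ℝ) (u v : V) : V → ℝ :=
  fun w => if w = u then x u + x v else if w = v then 0 else x w

lemma shift_edge_aux (x : V → ℝ) {u v : V} (huv : u ≠ v) (e : Finset V) (hu : u ∈ e) (hv : v ∉ e) :
    x u * ∏ w ∈ e, shift x u v w + x v * ∏ w ∈ e, shift x v u w = (x u + x v) * ∏ w ∈ e, x w := by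
  have h1 : ∏ w ∈ e, shift x v u w = 0 := Finset.prod_eq_zero hu (by simp [shift, huv])
  rw [h1, ← Finset.mul_prod_erase e _ hu, ← Finset.mul_prod_erase e x hu]
  have h2 : ∏ w ∈ e.erase u, shift x u v w = ∏ w ∈ e.erase u, x w := by
    refine Finset.prod_congr rfl (fun w hw => ?_)
    have h3 := Finset.ne_of_mem_erase hw
    have h4 : w ≠ v := fun h => hv (h ▸ Finset.mem_of_mem_erase hw)
    simp [shift, h3, h4]
  rw [h2]
  simp only [shift, if_true]
  ring

lemma shift_edge (x : V → ℝ) {u v : V} (huv : u ≠ v) (e : Finset V) (h : ¬ (u ∈ e ∧ v ∈ e)) :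
    x u * ∏ w ∈ e, shift x u v w + x v * ∏ w ∈ e, shift x v u w = (x u + x v) * ∏ w ∈ e, x w := by
  by_cases hu : u ∈ e
  · exact shift_edge_aux x huv e hu (fun hv => h ⟨hu, hv⟩)
  · by_cases hv : v ∈ e
    · have := shift_edge_aux x huv.symm e hv hu
      linarith
    · have h1 : ∀ a b : V, a ∉ e → b ∉ e → ∏ w ∈ e, shift x a b w = ∏ w ∈ e, x w := by
        intro a b ha hb
        refine Finset.prod_congr rfl (fun w hw => ?_)
        have h3 : w ≠ a := fun h => ha (h ▸ hw)
        have h4 : w ≠ b := fun h => hb (h ▸ hw)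
        simp [shift, h3, h4]
      rw [h1 u v hu hv, h1 v u hv hu]
      ring

lemma shift_sum [Fintype V] (x : V → ℝ) {u v : V} (huv : u ≠ v) :
    ∑ w, shift x u v w = ∑ w, x w := by
  have : ∀ w, shift x u v w = x w + (if w = u then x v else 0) - (if w = v then x v else 0) := by
    intro w
    unfold shift
    by_cases h1 : w = u
    · subst h1
      simp [huv]
    · by_cases h2 : w = v
      · subst h2
        simp [h1]
      · simp [h1, h2]
  simp only [this, Finset.sum_sub_distrib, Finset.sum_add_distrib, Finset.sum_ite_eq',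
    Finset.mem_univ, if_true]
  ring

lemma shift_card [Fintype V] (x : V → ℝ) {u v : V} (huv : u ≠ v) (hu : x u ≠ 0) (hv : x v ≠ 0) :
    (univ.filter (fun w => shift x u v w ≠ 0)).card < (univ.filter (fun w => x w ≠ 0)).card := by
  refine Finset.card_lt_card ⟨fun w hw => ?_, fun h => ?_⟩
  · replace hw := (Finset.mem_filter.1 hw).2
    refine Finset.mem_filter.2 ⟨Finset.mem_univ _, ?_⟩
    by_cases h1 : w = u
    · exact h1 ▸ hu
    · by_cases h2 : w = v
      · exact h2 ▸ hv
      · simpa [shift, h1, h2] using hw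
  · have := (Finset.mem_filter.1 (h (Finset.mem_filter.2 ⟨Finset.mem_univ v, hv⟩))).2
    simp [shift, huv.symm] at this

lemma shift_nonneg {x : V → ℝ} (hx : ∀ w, 0 ≤ x w) (u v w : V) : 0 ≤ shift x u v w := by
  unfold shift
  split_ifs
  · exact add_nonneg (hx _) (hx _)
  · exact le_rfl
  · exact hx _

lemma symmetrize [Fintype V] (H : Finset (Finset V)) :
    ∀ (n : ℕ) (x : V → ℝ), (univ.filter (fun v => x v ≠ 0)).card < n → (∀ v, 0 ≤ x v) →
      ∑ v, x v = 1 → ∃ y : V → ℝ, (∀ v, 0 ≤ y v) ∧ ∑ v, y v = 1 ∧ poly H x ≤ poly H y ∧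
        ∀ u v, y u ≠ 0 → y v ≠ 0 → u ≠ v → ∃ e ∈ H, u ∈ e ∧ v ∈ e := by
  intro n
  induction n with
  | zero => intro x h; omega
  | succ n ih =>
    intro x hcard hx0 hx1
    by_cases h : ∀ u v, x u ≠ 0 → x v ≠ 0 → u ≠ v → ∃ e ∈ H, u ∈ e ∧ v ∈ e
    · exact ⟨x, hx0, hx1, le_rfl, h⟩
    · push Not at h
      obtain ⟨u, v, hu, hv, huv, he⟩ := h
      have hsum : x u * poly H (shift x u v) + x v * poly H (shift x v u) =
          (x u + x v) * poly H x := by
        simp only [poly, Finset.mul_sum, ← Finset.sum_add_distrib]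
        exact Finset.sum_congr rfl (fun e heH => shift_edge x huv e (fun h => he e heH h.1 h.2))
      have hu' : 0 < x u := lt_of_le_of_ne (hx0 u) hu.symm
      have hv' : 0 < x v := lt_of_le_of_ne (hx0 v) hv.symm
      have key : ∀ a b, a ≠ b → x a ≠ 0 → x b ≠ 0 → poly H x ≤ poly H (shift x a b) →
          ∃ y : V → ℝ, (∀ v, 0 ≤ y v) ∧ ∑ v, y v = 1 ∧ poly H x ≤ poly H y ∧
            ∀ u v, y u ≠ 0 → y v ≠ 0 → u ≠ v → ∃ e ∈ H, u ∈ e ∧ v ∈ e := by
        intro a b hab ha hb hle
        obtain ⟨y, h1, h2, h3, h4⟩ := ih (shift x a b)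
          (by have := shift_card x hab ha hb; omega) (shift_nonneg hx0 a b)
          (by rw [shift_sum x hab, hx1])
        exact ⟨y, h1, h2, hle.trans h3, h4⟩
      by_cases h1 : poly H x ≤ poly H (shift x u v)
      · exact key u v huv hu hv h1
      · refine key v u huv.symm hv hu ?_
        by_contra h2
        push Not at h1 h2
        nlinarith

/-- A finite graph with no infinite non-backtracking walk has a parent function. -/
lemma exists_parent (L : V → V → Prop) (hsymm : ∀ u v, L u v → L v u) (U : Finset V) :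
    (¬ ∃ z : ℕ → V, ∀ i, z i ∈ U ∧ L (z i) (z (i + 1)) ∧ z i ≠ z (i + 2)) →
      ∃ π : V → V, ∀ u ∈ U, ∀ v ∈ U, L u v → π u = v ∨ π v = u := by
  classical
  induction U using Finset.strongInduction with
  | H U ih =>
    intro hno
    rcases U.eq_empty_or_nonempty with rfl | ⟨u0, hu0⟩
    · exact ⟨id, fun u hu => by simp at hu⟩
    have hleaf : ∃ u ∈ U, ∀ v ∈ U, ∀ v' ∈ U, L u v → L u v' → v = v' := by
      by_contra hcon
      push Not at hcon
      choose! a ha b hb hla hlb hab using hcon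
      let next : V × V → V × V := fun s => (s.2, if a s.2 = s.1 then b s.2 else a s.2)
      let st : ℕ → V × V := fun n => next^[n] (u0, a u0)
      have hst : ∀ n, st (n + 1) = next (st n) := fun n => Function.iterate_succ_apply' _ _ _
      have hinv : ∀ n, (st n).1 ∈ U ∧ (st n).2 ∈ U ∧ L (st n).1 (st n).2 := by
        intro n
        induction n with
        | zero => exact ⟨hu0, ha u0 hu0, hla u0 hu0⟩
        | succ n ihn =>
          rw [hst]
          obtain ⟨h1, h2, h3⟩ := ihn
          refine ⟨h2, ?_, ?_⟩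
          · simp only [next]
            split_ifs
            · exact hb _ h2
            · exact ha _ h2
          · simp only [next]
            split_ifs
            · exact hlb _ h2
            · exact hla _ h2
      refine hno ⟨fun n => (st n).1, fun n => ⟨(hinv n).1, ?_, ?_⟩⟩
      · simp only [hst, next]
        exact (hinv n).2.2
      · simp only [hst, next]
        split_ifs with h
        · rw [← h]
          exact hab _ (hinv n).2.1
        · exact fun h' => h h'.symm
    obtain ⟨u, hu, huniq⟩ := hleaf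
    obtain ⟨π, hπ⟩ := ih (U.erase u) (Finset.erase_ssubset hu) (by
      rintro ⟨z, hz⟩
      exact hno ⟨z, fun i => ⟨Finset.mem_of_mem_erase (hz i).1, (hz i).2⟩⟩)
    let p : V := if h : ∃ v ∈ U, L u v then h.choose else u
    have hp : ∀ v ∈ U, L u v → p = v := by
      intro v hv hl
      have h : ∃ v ∈ U, L u v := ⟨v, hv, hl⟩
      simp only [p, dif_pos h]
      exact huniq _ h.choose_spec.1 _ hv h.choose_spec.2 hl
    refine ⟨Function.update π u p, fun a ha b hb hl => ?_⟩
    by_cases hau : a = u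
    · subst hau
      left
      rw [Function.update_self]
      exact hp b hb hl
    · by_cases hbu : b = u
      · subst hbu
        right
        rw [Function.update_self]
        exact hp a ha (hsymm _ _ hl)
      · rw [Function.update_of_ne hau, Function.update_of_ne hbu]
        exact hπ a (Finset.mem_erase.2 ⟨hau, ha⟩) b (Finset.mem_erase.2 ⟨hbu, hb⟩) hl

noncomputable def ee (B : Finset V) (y : V → ℝ) (m : ℕ) : ℝ :=
  ∑ p ∈ B.powersetCard m, ∏ v ∈ p, y v

noncomputable def dd (B : Finset V) (y : V → ℝ) (m : ℕ) : ℝ :=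
  ∑ p ∈ B.powersetCard m, (∏ v ∈ p, y v) * ∑ v ∈ p, y v

lemma double_count (B : Finset V) (m : ℕ) (F : Finset V → V → ℝ) :
    ∑ p ∈ B.powersetCard m, ∑ j ∈ B \ p, F p j =
      ∑ q ∈ B.powersetCard (m + 1), ∑ j ∈ q, F (q.erase j) j := by
  rw [Finset.sum_sigma', Finset.sum_sigma']
  refine Finset.sum_nbij' (fun s => ⟨insert s.2 s.1, s.2⟩) (fun s => ⟨s.1.erase s.2, s.2⟩)
    ?_ ?_ ?_ ?_ ?_
  · rintro ⟨p, j⟩ h
    simp only [Finset.mem_sigma, Finset.mem_powersetCard, Finset.mem_sdiff] at h ⊢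
    exact ⟨⟨Finset.insert_subset h.2.1 h.1.1, by rw [Finset.card_insert_of_notMem h.2.2, h.1.2]⟩,
      Finset.mem_insert_self _ _⟩
  · rintro ⟨q, j⟩ h
    simp only [Finset.mem_sigma, Finset.mem_powersetCard, Finset.mem_sdiff] at h ⊢
    exact ⟨⟨(Finset.erase_subset _ _).trans h.1.1, by rw [Finset.card_erase_of_mem h.2, h.1.2]; rfl⟩,
      h.1.1 h.2, Finset.notMem_erase _ _⟩
  · rintro ⟨p, j⟩ h
    simp only [Finset.mem_sigma, Finset.mem_powersetCard, Finset.mem_sdiff] at h
    simp [Finset.erase_insert h.2.2]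
  · rintro ⟨q, j⟩ h
    simp only [Finset.mem_sigma, Finset.mem_powersetCard] at h
    simp [Finset.insert_erase h.2]
  · rintro ⟨p, j⟩ h
    simp only [Finset.mem_sigma, Finset.mem_powersetCard, Finset.mem_sdiff] at h
    simp [Finset.erase_insert h.2.2]

lemma ee_rec (B : Finset V) (y : V → ℝ) (m : ℕ) :
    (∑ v ∈ B, y v) * ee B y m = (m + 1) * ee B y (m + 1) + dd B y m := by
  have h1 := double_count B m (fun p j => (∏ v ∈ p, y v) * y j)
  have h2 : ∑ q ∈ B.powersetCard (m + 1), ∑ j ∈ q, (∏ v ∈ q.erase j, y v) * y j =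
      (m + 1) * ee B y (m + 1) := by
    rw [ee, Finset.mul_sum]
    refine Finset.sum_congr rfl (fun q hq => ?_)
    rw [Finset.sum_congr rfl (fun j hj => Finset.prod_erase_mul q y hj), Finset.sum_const,
      (Finset.mem_powersetCard.1 hq).2]
    simp
  rw [← h2, ← h1, ee, dd, Finset.mul_sum, ← Finset.sum_add_distrib]
  refine Finset.sum_congr rfl (fun p hp => ?_)
  rw [← Finset.mul_sum, ← Finset.sum_sdiff (Finset.mem_powersetCard.1 hp).1]
  ring

lemma dd_rec (B : Finset V) {y : V → ℝ} (hy : ∀ v, 0 ≤ y v) (m : ℕ) :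
    m * dd B y (m + 1) ≤ (∑ v ∈ B, y v) * dd B y m := by
  have h1 := double_count B m (fun p j => (∏ v ∈ p, y v) * y j * ∑ v ∈ p, y v)
  have h2 : ∑ q ∈ B.powersetCard (m + 1), ∑ j ∈ q,
      (∏ v ∈ q.erase j, y v) * y j * ∑ v ∈ q.erase j, y v = m * dd B y (m + 1) := by
    rw [dd, Finset.mul_sum]
    refine Finset.sum_congr rfl (fun q hq => ?_)
    rw [Finset.sum_congr rfl (g := fun j => (∏ v ∈ q, y v) * (∑ v ∈ q, y v - y j))
      (fun j hj => by rw [Finset.prod_erase_mul q y hj, ← Finset.add_sum_erase q y hj]; ring),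
      ← Finset.mul_sum, Finset.sum_sub_distrib, Finset.sum_const, (Finset.mem_powersetCard.1 hq).2]
    simp only [nsmul_eq_mul]
    push_cast
    ring
  rw [← h2, ← h1, dd, Finset.mul_sum]
  refine Finset.sum_le_sum (fun p hp => ?_)
  rw [← Finset.sum_mul, ← Finset.mul_sum, ← Finset.sum_sdiff (Finset.mem_powersetCard.1 hp).1]
  have a1 : 0 ≤ ∏ v ∈ p, y v := Finset.prod_nonneg fun v _ => hy v
  have a2 : 0 ≤ ∑ v ∈ p, y v := Finset.sum_nonneg fun v _ => hy v
  nlinarith [mul_nonneg a1 (mul_nonneg a2 a2)]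

lemma ee_bound (B : Finset V) {y : V → ℝ} (hy : ∀ v, 0 ≤ y v) (m : ℕ) :
    (m + 1).factorial * (2 * ee B y (m + 1) + dd B y m) ≤ 2 * (∑ v ∈ B, y v) ^ (m + 1) := by
  have hY : 0 ≤ ∑ v ∈ B, y v := Finset.sum_nonneg fun v _ => hy v
  induction m with
  | zero =>
    have h1 := ee_rec B y 0
    have h2 : ee B y 0 = 1 := by simp [ee]
    have h3 : dd B y 0 = 0 := by simp [dd]
    rw [h2, h3] at h1
    rw [h3]
    simp only [Nat.cast_zero, zero_add, Nat.factorial_one, Nat.cast_one, pow_one] at h1 ⊢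
    linarith
  | succ m ih =>
    have h1 := ee_rec B y (m + 1)
    have h2 := dd_rec B hy m
    have hf : (0 : ℝ) < (m + 1).factorial := by positivity
    rw [Nat.factorial_succ (m + 1), pow_succ _ (m + 1)]
    push_cast at h1 ⊢
    have h3 := mul_le_mul_of_nonneg_left ih hY
    have h4 := mul_le_mul_of_nonneg_left h2 hf.le
    have h5 : ((m : ℝ) + 1 + 1) * ((m + 1).factorial : ℝ) *
        (2 * ee B y (m + 1 + 1) + dd B y (m + 1)) =
        ((m + 1).factorial : ℝ) * (2 * (((m : ℝ) + 1 + 1) * ee B y (m + 1 + 1) + dd B y (m + 1))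
          + m * dd B y (m + 1)) := by ring
    rw [h5, ← h1]
    nlinarith

end

end Pool.Agent.Lib.MP_d2ae2d_co
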