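import Mathlib
import Pool.Agent.Lib.MP_d2ae2d_co.Sym

set_option autoImplicit false

namespace Pool.Agent.Lib.MP_d2ae2d_co

open Finset

section
variable {V : Type*} [DecidableEq V]

omit [DecidableEq V] in
lemma exists_rank [Fintype V] (y : V → ℝ) :
    ∃ κ : V → ℕ, Function.Injective κ ∧ ∀ u v, κ u < κ v → y v ≤ y u := by
  let e := Fintype.equivFin V
  let f : Fin (Fintype.card V) → ℝ := fun i => - y (e.symm i)
  let σ := Tuple.sort f
  have hm : Monotone (f ∘ σ) := Tuple.monotone_sort f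
  refine ⟨fun v => (σ.symm (e v) : ℕ), ?_, fun u v h => ?_⟩
  · intro u v h
    exact e.injective (σ.symm.injective (Fin.ext h))
  · have := hm (show σ.symm (e u) ≤ σ.symm (e v) from le_of_lt h)
    simpa [f] using this

lemma forest_bound [Fintype V] {k : ℕ} (hk : 0 < k) {H : Finset (Finset V)} (hH : Unif (k + 2) H)
    (B : Finset V) {y : V → ℝ} (hy : ∀ v, 0 ≤ y v)
    (hno : ∀ D ∈ B.powersetCard k, ¬ ∃ z : ℕ → V, ∀ i, z i ∈ B ∧
      insert (z i) (insert (z (i + 1)) D) ∈ H ∧ z i ≠ z (i + 2)) :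
    k * ∑ e ∈ H.filter (· ⊆ B), ∏ v ∈ e, y v ≤ dd B y (k + 1) := by
  classical
  obtain ⟨κ, hκ, hκy⟩ := exists_rank y
  let U : Finset V → Finset V := fun D => B.filter (fun u => ∀ j ∈ D, κ j < κ u)
  have hpar : ∀ D : Finset V, ∃ π : V → V, D ∈ B.powersetCard k → ∀ u ∈ U D, ∀ v ∈ U D,
      insert u (insert v D) ∈ H → π u = v ∨ π v = u := by
    intro D
    by_cases hD : D ∈ B.powersetCard k
    · obtain ⟨π, hπ⟩ := exists_parent (fun u v => insert u (insert v D) ∈ H)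
        (fun u v h => by rwa [Finset.insert_comm]) (U D) (by
          rintro ⟨z, hz⟩
          exact hno D hD ⟨z, fun i => ⟨(Finset.mem_filter.1 (hz i).1).1, (hz i).2⟩⟩)
      exact ⟨π, fun _ => hπ⟩
    · exact ⟨id, fun h => absurd h hD⟩
  choose π hπ using hpar
  let Z : Finset (Σ _ : Finset V, V) :=
    (B.powersetCard k).sigma (fun D => (U D).filter (fun u => π D u ∈ U D ∧ π D u ≠ u))
  have hZ : ∀ s ∈ Z, s.1 ⊆ B ∧ s.1.card = k ∧ s.2 ∈ B ∧ (∀ j ∈ s.1, κ j < κ s.2) ∧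
      (∀ j ∈ s.1, κ j < κ (π s.1 s.2)) ∧ π s.1 s.2 ≠ s.2 := by
    intro s hs
    obtain ⟨h1, h2⟩ := Finset.mem_sigma.1 hs
    obtain ⟨h3, h4, h5⟩ := Finset.mem_filter.1 h2
    exact ⟨(Finset.mem_powersetCard.1 h1).1, (Finset.mem_powersetCard.1 h1).2,
      (Finset.mem_filter.1 h3).1, (Finset.mem_filter.1 h3).2, (Finset.mem_filter.1 h4).2, h5⟩
  have step1 : H.filter (· ⊆ B) ⊆ Z.image (fun s => insert (π s.1 s.2) (insert s.2 s.1)) := by
    intro e he
    obtain ⟨heH, heB⟩ := Finset.mem_filter.1 he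
    have hc := hH e heH
    obtain ⟨u, hu, humax⟩ := Finset.exists_max_image e κ (Finset.card_pos.1 (by omega))
    have hc1 : (e.erase u).card = k + 1 := by rw [Finset.card_erase_of_mem hu, hc]; rfl
    obtain ⟨v, hv, hvmax⟩ := Finset.exists_max_image (e.erase u) κ (Finset.card_pos.1 (by omega))
    have hc2 : ((e.erase u).erase v).card = k := by rw [Finset.card_erase_of_mem hv, hc1]; rfl
    set D := (e.erase u).erase v with hD
    have hDe : D ⊆ e := (Finset.erase_subset _ _).trans (Finset.erase_subset _ _)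
    have hDB : D ∈ B.powersetCard k := Finset.mem_powersetCard.2 ⟨hDe.trans heB, hc2⟩
    have heq : insert u (insert v D) = e := by
      rw [hD, Finset.insert_erase hv, Finset.insert_erase hu]
    have hvu : v ≠ u := Finset.ne_of_mem_erase hv
    have hvU : v ∈ U D := Finset.mem_filter.2 ⟨heB (Finset.mem_of_mem_erase hv), fun j hj =>
      lt_of_le_of_ne (hvmax j (Finset.mem_of_mem_erase hj))
        (fun h => Finset.ne_of_mem_erase hj (hκ h))⟩
    have huU : u ∈ U D := Finset.mem_filter.2 ⟨heB hu, fun j hj =>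
      lt_of_le_of_ne (humax j (hDe hj))
        (fun h => Finset.ne_of_mem_erase (Finset.mem_of_mem_erase hj) (hκ h))⟩
    rcases hπ D hDB u huU v hvU (heq ▸ heH) with h | h
    · refine Finset.mem_image.2 ⟨⟨D, u⟩, Finset.mem_sigma.2 ⟨hDB, Finset.mem_filter.2
        ⟨huU, h ▸ hvU, h ▸ hvu⟩⟩, ?_⟩
      simp only [h]
      rw [Finset.insert_comm, heq]
    · refine Finset.mem_image.2 ⟨⟨D, v⟩, Finset.mem_sigma.2 ⟨hDB, Finset.mem_filter.2
        ⟨hvU, h ▸ huU, h ▸ hvu.symm⟩⟩, ?_⟩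
      simp only [h]
      exact heq
  have hprod : ∀ e : Finset V, 0 ≤ ∏ v ∈ e, y v := fun e => Finset.prod_nonneg fun v _ => hy v
  have step2 : ∑ e ∈ H.filter (· ⊆ B), ∏ v ∈ e, y v ≤
      ∑ s ∈ Z, ∏ v ∈ insert (π s.1 s.2) (insert s.2 s.1), y v :=
    (Finset.sum_le_sum_of_subset_of_nonneg step1 (fun e _ _ => hprod e)).trans
      (Finset.sum_image_le_of_nonneg (fun e _ => hprod e))
  have step3 : ∀ s ∈ Z, k * ∏ v ∈ insert (π s.1 s.2) (insert s.2 s.1), y v ≤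
      (∏ v ∈ insert s.2 s.1, y v) * ∑ v ∈ insert s.2 s.1, y v := by
    intro s hs
    obtain ⟨h1, h2, h3, h4, h5, h6⟩ := hZ s hs
    have hn : π s.1 s.2 ∉ insert s.2 s.1 := by
      intro h
      rcases Finset.mem_insert.1 h with h | h
      · exact h6 h
      · exact lt_irrefl _ (h5 _ h)
    rw [Finset.prod_insert hn]
    have a1 : k * y (π s.1 s.2) ≤ ∑ v ∈ s.1, y v := by
      have := Finset.card_nsmul_le_sum s.1 y (y (π s.1 s.2)) (fun j hj => hκy _ _ (h5 j hj))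
      rwa [h2, nsmul_eq_mul] at this
    have a2 : ∑ v ∈ s.1, y v ≤ ∑ v ∈ insert s.2 s.1, y v :=
      Finset.sum_le_sum_of_subset_of_nonneg (Finset.subset_insert _ _) (fun v _ _ => hy v)
    have := mul_le_mul_of_nonneg_left (a1.trans a2) (hprod (insert s.2 s.1))
    linarith
  have hinj : Set.InjOn (fun s : (Σ _ : Finset V, V) => insert s.2 s.1) Z := by
    rintro ⟨D, u⟩ hs ⟨D', u'⟩ hs' h
    obtain ⟨-, -, -, h4, -, -⟩ := hZ _ hs
    obtain ⟨-, -, -, h4', -, -⟩ := hZ _ hs'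
    simp only at h h4 h4'
    have huu : u = u' := by
      by_contra hne
      have m1 : u ∈ insert u' D' := h ▸ Finset.mem_insert_self u D
      have m2 : u' ∈ insert u D := h ▸ Finset.mem_insert_self u' D'
      have := h4' u ((Finset.mem_insert.1 m1).resolve_left hne)
      have := h4 u' ((Finset.mem_insert.1 m2).resolve_left (Ne.symm hne))
      omega
    subst huu
    have n1 : u ∉ D := fun h => lt_irrefl _ (h4 u h)
    have n2 : u ∉ D' := fun h => lt_irrefl _ (h4' u h)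
    have : D = D' := by rw [← Finset.erase_insert n1, h, Finset.erase_insert n2]
    subst this
    rfl
  have step4 : ∑ s ∈ Z, (∏ v ∈ insert s.2 s.1, y v) * ∑ v ∈ insert s.2 s.1, y v ≤
      dd B y (k + 1) := by
    rw [← Finset.sum_image (f := fun p : Finset V => (∏ v ∈ p, y v) * ∑ v ∈ p, y v) hinj]
    refine Finset.sum_le_sum_of_subset_of_nonneg (fun p hp => ?_)
      (fun p _ _ => mul_nonneg (hprod p) (Finset.sum_nonneg fun v _ => hy v))
    obtain ⟨s, hs, rfl⟩ := Finset.mem_image.1 hp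
    obtain ⟨h1, h2, h3, h4, -, -⟩ := hZ s hs
    refine Finset.mem_powersetCard.2 ⟨Finset.insert_subset h3 h1, ?_⟩
    rw [Finset.card_insert_of_notMem (fun h => lt_irrefl _ (h4 _ h)), h2]
  calc _ ≤ k * ∑ s ∈ Z, ∏ v ∈ insert (π s.1 s.2) (insert s.2 s.1), y v :=
        mul_le_mul_of_nonneg_left step2 (by positivity)
    _ ≤ _ := by
        rw [Finset.mul_sum]
        exact (Finset.sum_le_sum step3).trans step4

lemma poly_split {k : ℕ} {H : Finset (Finset V)} (hH : Unif (k + 2) H) {y : V → ℝ}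
    (hy : ∀ v, 0 ≤ y v) (a : V) (B : Finset V) (ha : a ∉ B)
    (hsupp : ∀ v, y v ≠ 0 → v = a ∨ v ∈ B) :
    poly H y ≤ y a * ee B y (k + 1) + ∑ e ∈ H.filter (· ⊆ B), ∏ v ∈ e, y v := by
  classical
  have hprod : ∀ e : Finset V, 0 ≤ ∏ v ∈ e, y v := fun e => Finset.prod_nonneg fun v _ => hy v
  have h1 : y a * ee B y (k + 1) = ∑ e ∈ (B.powersetCard (k + 1)).image (insert a),
      ∏ v ∈ e, y v := by
    rw [Finset.sum_image, ee, Finset.mul_sum]
    · refine Finset.sum_congr rfl (fun p hp => ?_)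
      rw [Finset.prod_insert (fun h => ha ((Finset.mem_powersetCard.1 hp).1 h))]
    · intro p hp q hq h
      have n1 : a ∉ p := fun h => ha ((Finset.mem_powersetCard.1 hp).1 h)
      have n2 : a ∉ q := fun h => ha ((Finset.mem_powersetCard.1 hq).1 h)
      rw [← Finset.erase_insert n1, h, Finset.erase_insert n2]
  rw [h1, poly, ← Finset.sum_filter_add_sum_filter_not H (· ⊆ B), add_comm]
  refine add_le_add ?_ le_rfl
  rw [← Finset.sum_filter_ne_zero]
  refine Finset.sum_le_sum_of_subset_of_nonneg (fun e he => ?_) (fun e _ _ => hprod e)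
  obtain ⟨he1, he2⟩ := Finset.mem_filter.1 he
  obtain ⟨he3, he4⟩ := Finset.mem_filter.1 he1
  have h2 : ∀ v ∈ e, v = a ∨ v ∈ B := fun v hv => hsupp v (Finset.prod_ne_zero_iff.1 he2 v hv)
  have hae : a ∈ e := by
    by_contra h
    exact he4 (fun v hv => (h2 v hv).resolve_left (fun h' => h (h' ▸ hv)))
  refine Finset.mem_image.2 ⟨e.erase a, Finset.mem_powersetCard.2 ⟨fun v hv =>
    (h2 v (Finset.mem_of_mem_erase hv)).resolve_left (Finset.ne_of_mem_erase hv), ?_⟩,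
    Finset.insert_erase hae⟩
  rw [Finset.card_erase_of_mem hae, hH e he3]
  rfl

lemma amgm10 {w Y : ℝ} (hY : 0 ≤ Y) (h : w + Y = 1) : 10 * w * Y ^ 9 ≤ (9 / 10) ^ 9 := by
  have hw : w = 1 - Y := by linarith
  subst hw
  obtain ⟨t, rfl⟩ : ∃ t, Y = 9 / 10 * t := ⟨10 / 9 * Y, by ring⟩
  have ht : 0 ≤ t := by linarith
  have : (9 / 10 : ℝ) ^ 9 - 10 * (1 - 9 / 10 * t) * (9 / 10 * t) ^ 9 = (9 / 10) ^ 9 * ((t - 1) ^ 2 *
      (1 + 2 * t + 3 * t ^ 2 + 4 * t ^ 3 + 5 * t ^ 4 + 6 * t ^ 5 + 7 * t ^ 6 + 8 * t ^ 7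
        + 9 * t ^ 8)) := by ring
  have h2 : 0 ≤ (9 / 10 : ℝ) ^ 9 * ((t - 1) ^ 2 *
      (1 + 2 * t + 3 * t ^ 2 + 4 * t ^ 3 + 5 * t ^ 4 + 6 * t ^ 5 + 7 * t ^ 6 + 8 * t ^ 7
        + 9 * t ^ 8)) := by positivity
  linarith

/-- Hypergraphs without property `Q` have Lagrangian at most that of the star. -/
lemma not_Q_bound [Fintype V] {H : Finset (Finset V)} (hH : Unif (8 + 2) H)
    (hQ : ¬ ∃ W, QW 8 H W) (x : V → ℝ) (hx0 : ∀ v, 0 ≤ x v) (hx1 : ∑ v, x v = 1) :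
    (8 + 2).factorial * poly H x ≤ (9 / 10) ^ 9 := by
  classical
  obtain ⟨y, hy0, hy1, hle, hcov⟩ := symmetrize H _ x (Nat.lt_succ_self _) hx0 hx1
  have hadj : ∀ u v, y u ≠ 0 → y v ≠ 0 → u ≠ v → Adj 8 H u v := by
    intro u v hu hv huv
    obtain ⟨e, he, h1, h2⟩ := hcov u v hu hv huv
    exact adj_of_mem hH huv he h1 h2
  have hne : {v | y v ≠ 0}.Nonempty := by
    by_contra h
    rw [Set.not_nonempty_iff_eq_empty, Set.eq_empty_iff_forall_notMem] at h
    have : ∀ v, y v = 0 := fun v => by simpa using h v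
    simp [this] at hy1
  have h1 : ¬ QW 8 H {v | y v ≠ 0} := fun h => hQ ⟨_, h⟩
  unfold QW at h1
  rw [not_and, not_forall] at h1
  obtain ⟨a, h2⟩ := h1 hne
  rw [Classical.not_imp] at h2
  obtain ⟨ha, h2⟩ := h2
  set B : Finset V := univ.filter (fun v => y v ≠ 0 ∧ v ≠ a) with hB
  have hmem : ∀ v, v ∈ B ↔ y v ≠ 0 ∧ v ≠ a := fun v => by simp [hB]
  have haB : a ∉ B := fun h => ((hmem a).1 h).2 rfl
  have hsupp : ∀ v, y v ≠ 0 → v = a ∨ v ∈ B := fun v hv => by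
    by_cases h : v = a
    · exact Or.inl h
    · exact Or.inr ((hmem v).2 ⟨hv, h⟩)
  have hf := forest_bound (k := 8) (by norm_num) hH B hy0 (by
    rintro D hD ⟨z, hz⟩
    obtain ⟨hD1, hD2⟩ := Finset.mem_powersetCard.1 hD
    obtain ⟨d, rfl⟩ := exists_enum D hD2
    have hd : ∀ j, d j ∈ B := fun j => hD1 (Finset.mem_image_of_mem _ (Finset.mem_univ j))
    refine h2 ⟨d, z, fun j => ⟨((hmem _).1 (hd j)).1, hadj _ _ ha ((hmem _).1 (hd j)).1
      ((hmem _).1 (hd j)).2.symm⟩, fun i => ⟨((hmem _).1 (hz i).1).1,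
      hadj _ _ ha ((hmem _).1 (hz i).1).1 ((hmem _).1 (hz i).1).2.symm, (hz i).2.1,
      hadj _ _ ((hmem _).1 (hz i).1).1 ((hmem _).1 (hz (i + 2)).1).1 (hz i).2.2⟩⟩)
  have hs := poly_split hH hy0 a B haB hsupp
  have hsum : y a + ∑ v ∈ B, y v = 1 := by
    rw [← Finset.sum_insert haB, ← hy1]
    refine Finset.sum_subset (Finset.subset_univ _) (fun v _ hv => ?_)
    by_contra h
    exact hv (Finset.mem_insert.2 (hsupp v h))
  have hd := dd_rec B hy0 8
  have he := ee_bound B hy0 8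
  set Y := ∑ v ∈ B, y v with hY
  have hY0 : 0 ≤ Y := Finset.sum_nonneg fun v _ => hy0 v
  have hw0 := hy0 a
  have hY1 : Y ≤ 1 := by linarith
  have he0 : 0 ≤ ee B y (8 + 1) := Finset.sum_nonneg fun p _ => Finset.prod_nonneg fun v _ => hy0 v
  have hd0 : 0 ≤ dd B y 8 := Finset.sum_nonneg fun p _ =>
    mul_nonneg (Finset.prod_nonneg fun v _ => hy0 v) (Finset.sum_nonneg fun v _ => hy0 v)
  have ham := amgm10 hY0 hsum
  have hp : Y ^ 9 ≤ 1 := pow_le_one₀ hY0 hY1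
  have hp0 : 0 ≤ Y ^ 9 := by positivity
  have f9 : (((8 + 1).factorial : ℕ) : ℝ) = 362880 := by norm_num [Nat.factorial]
  have f10 : (((8 + 2).factorial : ℕ) : ℝ) = 3628800 := by norm_num [Nat.factorial]
  rw [f9] at he
  rw [f10]
  push_cast at hf hd
  have hmain : poly H y ≤ y a * ee B y (8 + 1) + Y * dd B y 8 / 64 := by linarith
  have he' : 362880 * (2 * ee B y (8 + 1) + dd B y 8) ≤ 2 * Y ^ 9 := he
  by_cases hc : Y / 32 ≤ y a
  · have b1 : Y * dd B y 8 / 64 ≤ y a * dd B y 8 / 2 := by nlinarith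
    have b2 := mul_le_mul_of_nonneg_left he' hw0
    nlinarith
  · push Not at hc
    have b1 : y a * ee B y (8 + 1) ≤ 1 / 32 * ee B y (8 + 1) := by nlinarith
    have b2 : Y * dd B y 8 ≤ 1 * dd B y 8 := mul_le_mul_of_nonneg_right hY1 hd0
    have b3 : (10 : ℝ) / 32 ≤ (9 / 10) ^ 9 := by norm_num
    linarith

end

end Pool.Agent.Lib.MP_d2ae2d_co
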