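import Mathlib
import Pool.Agent.Lib.MP_d2ae2d_co.QDef
import Pool.Agent.Lib.MP_d2ae2d_co.Group

set_option autoImplicit false

namespace Pool.Agent.Lib.MP_d2ae2d_co

open Finset

section
variable {Γ : Type} [Group Γ] [Fintype Γ] [DecidableEq Γ] {s : ℕ}

def graph (v : Fin 10 → Γ) : Finset (Option (Fin 10 × Γ)) :=
  univ.image (fun c => some (c, v c))

def starE (Γ : Type) [Fintype Γ] : Finset (Finset (Option (Fin 10 × Γ))) :=
  ((univ : Finset (Fin 10 × Γ)).powersetCard 9).map Finset.insertNone.toEmbedding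

def goodV (σ : Fin s → Γ) : Finset (Fin 10 → Γ) :=
  univ.filter (fun v => ∃ i, (List.ofFn v).prod = σ i)

def bigH (σ : Fin s → Γ) : Finset (Finset (Option (Fin 10 × Γ))) :=
  starE Γ ∪ (goodV σ).image graph

omit [Group Γ] [Fintype Γ] in
lemma some_mem_graph (v : Fin 10 → Γ) (x : Fin 10 × Γ) : some x ∈ graph v ↔ v x.1 = x.2 := by
  simp only [graph, Finset.mem_image, Finset.mem_univ, true_and, Option.some.injEq]
  constructor
  · rintro ⟨c, rfl⟩
    rfl
  · intro h
    exact ⟨x.1, by rw [h]⟩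

omit [Group Γ] [Fintype Γ] in
lemma none_notMem_graph (v : Fin 10 → Γ) : none ∉ graph v := by simp [graph]

omit [Group Γ] [Fintype Γ] in
lemma graph_card (v : Fin 10 → Γ) : (graph v).card = 10 := by
  rw [graph, Finset.card_image_of_injective]
  · simp
  · intro a b h
    simp only [Option.some.injEq, Prod.mk.injEq] at h
    exact h.1

omit [Group Γ] [Fintype Γ] in
lemma graph_inj : Function.Injective (graph (Γ := Γ)) := by
  intro v w h
  funext c
  have : some (c, v c) ∈ graph v := (some_mem_graph _ _).2 rfl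
  rw [h, some_mem_graph] at this
  exact this.symm

omit [Group Γ] [DecidableEq Γ] in
lemma mem_starE {e : Finset (Option (Fin 10 × Γ))} (he : e ∈ starE Γ) :
    none ∈ e ∧ e.card = 10 := by
  obtain ⟨p, hp, rfl⟩ := Finset.mem_map.1 he
  refine ⟨Finset.none_mem_insertNone, ?_⟩
  have := Finset.card_insertNone p
  rw [(Finset.mem_powersetCard.1 hp).2] at this
  exact this

lemma bigH_unif (σ : Fin s → Γ) : Unif (8 + 2) (bigH σ) := by
  intro e he
  rcases Finset.mem_union.1 he with h | h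
  · exact (mem_starE h).2
  · obtain ⟨v, -, rfl⟩ := Finset.mem_image.1 h
    exact graph_card v

lemma goodV_card {σ : Fin s → Γ} (hσ : Function.Injective σ) :
    s * Fintype.card Γ ^ 9 ≤ (goodV σ).card := by
  have : s * Fintype.card Γ ^ 9 = (univ : Finset (Fin s × (Fin 9 → Γ))).card := by simp
  rw [this]
  refine Finset.card_le_card_of_injOn
    (fun p => (Fin.cons (σ p.1 * ((List.ofFn p.2).prod)⁻¹) p.2 : Fin 10 → Γ)) ?_ ?_
  · intro p _
    refine Finset.mem_coe.2 (Finset.mem_filter.2 ⟨Finset.mem_univ _, p.1, ?_⟩)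
    rw [List.ofFn_succ]
    simp only [Fin.cons_zero, Fin.cons_succ, List.prod_cons]
    group
  · rintro ⟨i, v⟩ - ⟨j, w⟩ - h
    obtain ⟨h1, h2⟩ := Fin.cons_injective2 h
    simp only at h1 h2
    subst h2
    rw [hσ (mul_right_cancel h1)]

noncomputable def wt (Γ : Type) [Fintype Γ] : Option (Fin 10 × Γ) → ℝ :=
  fun o => o.elim (1 / 10) (fun _ => 9 / 100 / Fintype.card Γ)

omit [DecidableEq Γ] in
lemma wt_sum : ∑ o, wt Γ o = 1 := by
  have hn : (0 : ℝ) < Fintype.card Γ := by exact_mod_cast Fintype.card_pos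
  rw [Fintype.sum_option]
  simp only [wt, Option.elim, Finset.sum_const, Finset.card_univ, Fintype.card_prod,
    Fintype.card_fin, nsmul_eq_mul]
  push_cast
  field_simp
  norm_num

omit [Group Γ] [DecidableEq Γ] in
lemma wt_nonneg (o : Option (Fin 10 × Γ)) : 0 ≤ wt Γ o := by
  cases o <;> simp only [wt, Option.elim] <;> positivity

lemma choose_lower (t : ℕ) (ht : 10 ≤ t) :
    (t : ℝ) ^ 9 * (1 - 81 / t) ≤ 362880 * (t.choose 9 : ℝ) := by
  have h1 := Nat.pow_sub_le_descFactorial t 9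
  rw [Nat.descFactorial_eq_factorial_mul_choose] at h1
  have h2 : (((t + 1 - 9 : ℕ) : ℝ)) ^ 9 ≤ 362880 * (t.choose 9 : ℝ) := by
    have : ((Nat.factorial 9 : ℕ) : ℝ) = 362880 := by norm_num [Nat.factorial]
    rw [← this]
    exact_mod_cast h1
  have ht' : (10 : ℝ) ≤ t := by exact_mod_cast ht
  have h3 : (((t + 1 - 9 : ℕ) : ℝ)) = t - 8 := by
    rw [Nat.cast_sub (by omega)]
    push_cast
    ring
  rw [h3] at h2
  have h4 : (-2 : ℝ) ≤ -9 / t := by
    rw [le_div_iff₀ (by linarith)]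
    linarith
  have h5 := one_add_mul_le_pow h4 9
  have h6 : (t : ℝ) ^ 9 * (1 + -9 / t) ^ 9 = (t - 9) ^ 9 := by
    rw [← mul_pow]
    congr 1
    field_simp
    ring
  have h7 : ((t : ℝ) - 9) ^ 9 ≤ (t - 8) ^ 9 := pow_le_pow_left₀ (by linarith) (by linarith) 9
  have h8 : (1 : ℝ) - 81 / t = 1 + (9 : ℕ) * (-9 / t) := by push_cast; ring
  rw [h8]
  have := mul_le_mul_of_nonneg_left h5 (show (0 : ℝ) ≤ (t : ℝ) ^ 9 by positivity)
  linarith

lemma bigH_poly {σ : Fin 100000 → Γ} (hσ : Function.Injective σ) :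
    (9 / 10 : ℝ) ^ 9 < (8 + 2).factorial * poly (bigH σ) (wt Γ) := by
  have hn1 : 1 ≤ Fintype.card Γ := Fintype.card_pos
  set n := Fintype.card Γ with hn
  have hn0 : (0 : ℝ) < n := by exact_mod_cast hn1
  have hdisj : Disjoint (starE Γ) ((goodV σ).image graph) := by
    rw [Finset.disjoint_left]
    intro e h1 h2
    obtain ⟨v, -, rfl⟩ := Finset.mem_image.1 h2
    exact none_notMem_graph v (mem_starE h1).1
  have h1 : ∑ e ∈ starE Γ, ∏ v ∈ e, wt Γ v =
      ((10 * n).choose 9 : ℝ) * (1 / 10 * (9 / 100 / n) ^ 9) := by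
    rw [starE, Finset.sum_map, Finset.sum_congr rfl (g := fun _ => 1 / 10 * (9 / 100 / (n : ℝ)) ^ 9)]
    · simp [hn]
    · intro p hp
      have := Finset.prod_insertNone (wt Γ) p
      refine this.trans ?_
      simp only [wt, Option.elim, Finset.prod_const, (Finset.mem_powersetCard.1 hp).2, hn]
  have h2 : ∑ e ∈ (goodV σ).image graph, ∏ v ∈ e, wt Γ v =
      (goodV σ).card * (9 / 100 / (n : ℝ)) ^ 10 := by
    rw [Finset.sum_image (fun a _ b _ h => graph_inj h),
      Finset.sum_congr rfl (g := fun _ => (9 / 100 / (n : ℝ)) ^ 10)]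
    · simp
    · intro v _
      rw [Finset.prod_congr rfl (g := fun _ => 9 / 100 / (n : ℝ)), Finset.prod_const, graph_card]
      intro o ho
      cases o with
      | none => exact absurd ho (none_notMem_graph v)
      | some x => rfl
  have h3 : (100000 : ℝ) * (n : ℝ) ^ 9 ≤ (goodV σ).card := by exact_mod_cast goodV_card hσ
  have h4 := choose_lower (10 * n) (by omega)
  have f10 : (((8 + 2).factorial : ℕ) : ℝ) = 3628800 := by norm_num [Nat.factorial]
  rw [poly, bigH, Finset.sum_union hdisj, h1, h2, f10]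
  push_cast at h4
  have hy : (0 : ℝ) < 9 / 100 / n := by positivity
  have a1 := mul_le_mul_of_nonneg_right h4 (show (0 : ℝ) ≤ (9 / 100 / n) ^ 9 by positivity)
  have a2 := mul_le_mul_of_nonneg_right h3 (show (0 : ℝ) ≤ (9 / 100 / n) ^ 10 by positivity)
  have b1 : (10 * (n : ℝ)) ^ 9 * (1 - 81 / (10 * n)) * (9 / 100 / n) ^ 9 =
      (9 / 10) ^ 9 - (9 / 10) ^ 9 * (81 / 10) * (1 / n) := by
    field_simp
    ring
  have b2 : 100000 * (n : ℝ) ^ 9 * (9 / 100 / n) ^ 10 = 100000 * (9 / 100) ^ 10 * (1 / n) := by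
    field_simp
  rw [b1] at a1
  rw [b2] at a2
  have b3 : (0 : ℝ) < 1 / n := by positivity
  nlinarith

omit [Fintype Γ] in
lemma walk_core {L : ℕ} {σ : Fin s → Γ} (hinv : ∀ i, (σ i)⁻¹ = σ i)
    (hfree : ∀ (a : ℕ → Fin s) (g : ℕ → Γ), (∀ j, a j ≠ a (j + 1)) → g 0 = 1 →
        (∀ j, g (j + 1) = σ (a j) * g j) → ∀ i ≤ L, ∀ j ≤ L, g i = g j → i = j)
    (D : Finset (Option (Fin 10 × Γ))) (hD : D.card ≤ 8) (z : ℕ → Fin 10 × Γ)
    (v : ℕ → Fin 10 → Γ) (a : ℕ → Fin s) (hv : ∀ i, (List.ofFn (v i)).prod = σ (a i))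
    (he : ∀ i, insert (some (z i)) (insert (some (z (i + 1))) D) = graph (v i))
    (hz : ∀ i, z i ≠ z (i + 2)) : (z 2).1 = (z 0).1 ∧ ((z 0).1 < (z 1).1 →
    ∀ i j, 2 * i ≤ L → 2 * j ≤ L → z (2 * i) = z (2 * j) → i = j) := by
  have m1 : ∀ i, v i (z i).1 = (z i).2 := fun i =>
    (some_mem_graph _ _).1 (he i ▸ Finset.mem_insert_self _ _)
  have m2 : ∀ i, v i (z (i + 1)).1 = (z (i + 1)).2 := fun i =>
    (some_mem_graph _ _).1 (he i ▸ Finset.mem_insert_of_mem (Finset.mem_insert_self _ _))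
  have m3 : ∀ i x, some x ∈ D → v i x.1 = x.2 := fun i x hx =>
    (some_mem_graph _ _).1 (he i ▸ Finset.mem_insert_of_mem (Finset.mem_insert_of_mem hx))
  have n1 : ∀ i, some (z i) ∉ insert (some (z (i + 1))) D := by
    intro i h
    have h1 := graph_card (v i)
    rw [← he i, Finset.insert_eq_of_mem h] at h1
    have := Finset.card_insert_le (some (z (i + 1))) D
    omega
  have c1 : ∀ i, (z i).1 ≠ (z (i + 1)).1 := by
    intro i h
    refine n1 i (Finset.mem_insert.2 (Or.inl (congrArg some (Prod.ext h ?_))))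
    rw [← m1 i, ← m2 i, h]
  have c2 : ∀ i c, c ≠ (z i).1 → c ≠ (z (i + 1)).1 → some (c, v i c) ∈ D := by
    intro i c h1 h2
    have : some (c, v i c) ∈ graph (v i) := (some_mem_graph _ _).2 rfl
    rw [← he i] at this
    rcases Finset.mem_insert.1 this with h | h
    · exact absurd (congrArg Prod.fst (Option.some.inj h)) h1
    · rcases Finset.mem_insert.1 h with h | h
      · exact absurd (congrArg Prod.fst (Option.some.inj h)) h2
      · exact h
  have c3 : ∀ i, (z (i + 2)).1 = (z i).1 := by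
    intro i
    by_contra h
    have h1 := c2 i _ h (c1 (i + 1)).symm
    have h2 := m3 (i + 2) _ h1
    simp only at h2
    rw [← h2, m1 (i + 2)] at h1
    exact n1 (i + 2) (Finset.mem_insert_of_mem h1)
  refine ⟨c3 0, fun hlt => ?_⟩
  have p0 : ∀ j, (z (2 * j)).1 = (z 0).1 := by
    intro j
    induction j with
    | zero => rfl
    | succ j ih => rw [show 2 * (j + 1) = 2 * j + 2 by ring, c3, ih]
  have q0 : ∀ j, (z (2 * j + 1)).1 = (z 1).1 := by
    intro j
    induction j with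
    | zero => rfl
    | succ j ih => rw [show 2 * (j + 1) + 1 = 2 * j + 1 + 2 by ring, c3, ih]
  obtain ⟨h, g, h', hf⟩ := prod_factor (v 0) hlt
  have hupd : ∀ i α β, v i (z 0).1 = α → v i (z 1).1 = β →
      h * α * g * β * h' = σ (a i) := by
    intro i α β h1 h2
    rw [← hf, ← hv i]
    congr 2
    funext c
    by_cases e1 : c = (z 1).1
    · rw [e1, Function.update_self, h2]
    · rw [Function.update_of_ne e1]
      by_cases e0 : c = (z 0).1
      · rw [e0, Function.update_self, h1]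
      · rw [Function.update_of_ne e0]
        exact (m3 i _ (c2 0 c e0 e1)).symm
  intro i j hi hj e
  refine walk_inj hinv hfree h g h' (fun j => (z (2 * j)).2) (fun j => (z (2 * j + 1)).2)
    (fun j e => hz (2 * j) (Prod.ext (c3 _).symm e))
    (fun j e => hz (2 * j + 1) (Prod.ext (c3 _).symm e)) (fun j => a (2 * j))
    (fun j => a (2 * j + 1)) (fun j => hupd _ _ _ ?_ ?_) (fun j => hupd _ _ _ ?_ ?_) i j hi hj
    (congrArg Prod.snd e)
  · rw [← p0 j, m1]
  · rw [← q0 j, m2]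
  · rw [← p0 (j + 1)]
    exact m2 (2 * j + 1)
  · rw [← q0 j, m1]

lemma bigH_no_Q {m : ℕ} {σ : Fin s → Γ} (hinv : ∀ i, (σ i)⁻¹ = σ i)
    (hfree : ∀ (a : ℕ → Fin s) (g : ℕ → Γ), (∀ j, a j ≠ a (j + 1)) → g 0 = 1 →
        (∀ j, g (j + 1) = σ (a j) * g j) → ∀ i ≤ 2 * m + 1, ∀ j ≤ 2 * m + 1, g i = g j → i = j)
    (φ : Fin m → Option (Fin 10 × Γ)) (W : Set (Fin m)) : ¬ QW 8 (bigH σ) (φ '' W) := by
  rintro ⟨hne, hQ⟩
  have hU := bigH_unif σ
  obtain ⟨u, hu, hnone⟩ : ∃ u ∈ φ '' W, ∀ w ∈ φ '' W, u ≠ w → w ≠ none := by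
    by_cases h : none ∈ φ '' W
    · exact ⟨none, h, fun w _ hw => hw.symm⟩
    · obtain ⟨u, hu⟩ := hne
      exact ⟨u, hu, fun w hw _ e => h (e ▸ hw)⟩
  obtain ⟨d, z, hd, hz⟩ := hQ u hu
  have hd' : ∀ j, d j ≠ none := fun j => hnone _ (hd j).1 ((hd j).2.ne hU)
  have hz' : ∀ i, ∃ x, z i = some x := fun i =>
    Option.ne_none_iff_exists'.1 (hnone _ (hz i).1 ((hz i).2.1.ne hU))
  choose y hy using hz'
  have hD : (univ.image d).card ≤ 8 := by simpa using Finset.card_image_le (s := univ) (f := d)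
  have hedge : ∀ i, ∃ (v : Fin 10 → Γ) (a : Fin s), (List.ofFn v).prod = σ a ∧
      insert (some (y i)) (insert (some (y (i + 1))) (univ.image d)) = graph v := by
    intro i
    have h := (hz i).2.2.1
    unfold Ed at h
    rw [hy, hy] at h
    rcases Finset.mem_union.1 h with h | h
    · exfalso
      have := (mem_starE h).1
      simp only [Finset.mem_insert, reduceCtorEq, Finset.mem_image, Finset.mem_univ, true_and,
        false_or] at this
      obtain ⟨j, hj⟩ := this
      exact hd' j hj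
    · obtain ⟨v, hv, e⟩ := Finset.mem_image.1 h
      obtain ⟨a, ha⟩ := (Finset.mem_filter.1 hv).2
      exact ⟨v, a, ha, e.symm⟩
  choose v a hv he using hedge
  have hyne : ∀ i, y i ≠ y (i + 2) := fun i e => (hz i).2.2.2.ne hU (by rw [hy, hy, e])
  have hfin : ∀ t : ℕ, (∀ i j, 2 * i ≤ 2 * m + 1 → 2 * j ≤ 2 * m + 1 →
      y (2 * i + t) = y (2 * j + t) → i = j) → False := by
    intro t ht
    choose w hw1 hw2 using fun i => (hz i).1
    have hinj : Function.Injective (fun i : Fin (m + 1) => w (2 * i + t)) := by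
      intro i j e
      have e2 : z (2 * i + t) = z (2 * j + t) := by rw [← hw2, ← hw2]; exact congrArg φ e
      rw [hy, hy] at e2
      exact Fin.ext (ht i j (by omega) (by omega) (Option.some.inj e2))
    have := Fintype.card_le_of_injective _ hinj
    simp at this
  rcases lt_trichotomy (y 0).1 (y 1).1 with h | h | h
  · exact hfin 0 ((walk_core hinv hfree _ hD y v a hv he hyne).2 h)
  · have m1 : v 0 (y 0).1 = (y 0).2 := (some_mem_graph _ _).1 (he 0 ▸ Finset.mem_insert_self _ _)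
    have m2 : v 0 (y 1).1 = (y 1).2 :=
      (some_mem_graph _ _).1 (he 0 ▸ Finset.mem_insert_of_mem (Finset.mem_insert_self _ _))
    have : y 0 = y 1 := Prod.ext h (by rw [← m1, ← m2, h])
    exact (hz 0).2.2.1.ne hU (by rw [hy, hy, this])
  · have h2 : (y 1).1 < (y 2).1 := by
      rw [(walk_core hinv hfree _ hD y v a hv he hyne).1]
      exact h
    exact hfin 1 ((walk_core hinv hfree _ hD (fun i => y (i + 1)) (fun i => v (i + 1))
      (fun i => a (i + 1)) (fun i => hv (i + 1)) (fun i => he (i + 1))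
      (fun i => hyne (i + 1))).2 h2)

end

end Pool.Agent.Lib.MP_d2ae2d_co
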