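import Mathlib
import Pool.Agent.Lib.MP_d2ae2d_co.Limit
import Pool.Agent.Lib.MP_d2ae2d_co.Upper
import Pool.Agent.Lib.MP_d2ae2d_co.Constr

set_option autoImplicit false

namespace Pool.Agent.Lib.MP_d2ae2d_co

open Finset Filter
open scoped Topology

/-- Every hypergraph with property `Q` has density strictly above that of the star. -/
lemma density_gt {m : ℕ} {G : Finset (Finset (Fin m))} (hQ : ∃ W, QW 8 G W) {d : ℝ}
    (hd : Tendsto (fun n : ℕ => (ex (8 + 2) m G n : ℝ) / n.choose (8 + 2)) atTop (𝓝 d)) :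
    (9 / 10 : ℝ) ^ 9 < d := by
  classical
  obtain ⟨Γ, _, _, σ, hσ, hinv, hfree⟩ := exists_group 100000 (2 * m + 1) (by omega)
  obtain ⟨W, hW⟩ := hQ
  refine (bigH_poly hσ).trans_le (ge_of_tendsto hd ?_)
  filter_upwards [eventually_ge_atTop (8 + 2)] with n hn
  have hC : (0 : ℝ) < n.choose (8 + 2) := by exact_mod_cast Nat.choose_pos hn
  have := lower_bound (G := G) (bigH_unif σ)
    (by rintro ⟨φ, hφ⟩; exact bigH_no_Q hinv hfree φ W (hW.map hφ)) (wt Γ) wt_nonneg wt_sum n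
  rw [le_div_iff₀ hC]
  linarith

lemma Q_of_dense {N : ℕ} (hN : 0 < N) {F : Finset (Finset (Fin N))} (hF : Unif (8 + 2) F)
    (h : (9 / 10 : ℝ) ^ 9 * (N : ℝ) ^ (8 + 2) / (8 + 2).factorial < F.card) : ∃ W, QW 8 F W := by
  by_contra hQ
  have hN' : (N : ℝ) ≠ 0 := by positivity
  have := not_Q_bound hF hQ (fun _ => (1 : ℝ) / N) (fun _ => by positivity) (by simp [hN'])
  rw [poly_unif hF, ← mul_div_assoc, div_le_iff₀ (by positivity)] at this
  rw [div_lt_iff₀ (by positivity)] at h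
  linarith

/-- Densities of single hypergraphs accumulate at the density of the star from above. -/
theorem accumulate {b : ℝ} (hb : (9 / 10 : ℝ) ^ 9 < b) :
    ∃ (m : ℕ) (G : Finset (Finset (Fin m))) (d : ℝ), Unif (8 + 2) G ∧
      Tendsto (fun n : ℕ => (ex (8 + 2) m G n : ℝ) / n.choose (8 + 2)) atTop (𝓝 d) ∧
      (9 / 10 : ℝ) ^ 9 < d ∧ d < b := by
  classical
  obtain ⟨b', hb1, hb2⟩ := exists_between hb
  have e1 : ∀ᶠ n : ℕ in atTop, (9 / 10 : ℝ) ^ 9 < b' * cc (8 + 2) n := by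
    have : Tendsto (fun n => b' * cc (8 + 2) n) atTop (𝓝 (b' * 1)) :=
      (cc_tendsto (8 + 2)).const_mul b'
    rw [mul_one] at this
    exact this.eventually (lt_mem_nhds hb1)
  have e2 : ∀ᶠ n : ℕ in atTop, (9 / 10 : ℝ) ^ 9 < cc (8 + 2) n :=
    (cc_tendsto (8 + 2)).eventually (lt_mem_nhds (by norm_num))
  obtain ⟨N, h1, h2, hN, hrN⟩ :=
    (e1.and (e2.and ((eventually_gt_atTop 0).and (eventually_ge_atTop (8 + 2))))).exists
  have hC : (0 : ℝ) < N.choose (8 + 2) := by exact_mod_cast Nat.choose_pos hrN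
  have hf : (0 : ℝ) < (8 + 2).factorial := by positivity
  have hp : (0 : ℝ) < (N : ℝ) ^ (8 + 2) := by positivity
  unfold cc at h1 h2
  let I := {F : Finset (Finset (Fin N)) // Unif (8 + 2) F ∧ ∃ W, QW 8 F W}
  have hK : Unif (8 + 2) ((univ : Finset (Fin N)).powersetCard (8 + 2)) :=
    fun e he => (Finset.mem_powersetCard.1 he).2
  have : Nonempty I := ⟨⟨_, hK, Q_of_dense hN hK (by
    rw [Finset.card_powersetCard, Finset.card_univ, Fintype.card_fin, div_lt_iff₀ hf]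
    rw [lt_div_iff₀ hp] at h2
    linarith)⟩⟩
  obtain ⟨m, G, hG, hQ, hhom⟩ := exists_product (I := I) (fun i => i.1) (fun i => i.2.1)
    (fun i => i.2.2)
  obtain ⟨d, hd⟩ := exists_limit hG hQ.choose_spec.nonempty
  refine ⟨m, G, d, hG, hd, density_gt hQ hd, lt_of_le_of_lt (le_of_tendsto hd ?_) hb2⟩
  refine upper_bound hrN hG (γ := (9 / 10 : ℝ) ^ 9 * (N : ℝ) ^ (8 + 2) / (8 + 2).factorial)
    (by positivity) (fun F hF => ?_) ?_
  · by_cases h : (9 / 10 : ℝ) ^ 9 * (N : ℝ) ^ (8 + 2) / (8 + 2).factorial < F.card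
    · exact Or.inl (hhom ⟨F, hF, Q_of_dense hN hF h⟩)
    · exact Or.inr (not_lt.1 h)
  · rw [← mul_div_assoc, lt_div_iff₀ hp] at h1
    rw [div_lt_iff₀ hC, div_lt_iff₀ hf]
    linarith

end Pool.Agent.Lib.MP_d2ae2d_co
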